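import Pool.Agent.TH684.LT.Bnd

/-!
# Small real solutions of systems of linear inequalities with integer coefficients
-/

set_option autoImplicit false

namespace Pool.Agent.TH743.KG

open Matrix Finset
open Pool.Agent.TH684.LT (exists_vertex)

variable {d : ℕ}

/-- **Small real solutions.** A system of linear inequalities with integer coefficients, of absolute
value at most `H`, and real right hand sides of absolute value at most `R` that has a real solution
has one with entries at most `R d! H ^ d`. -/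
theorem small_real {ι : Type*} [Fintype ι] (r : ι → Fin d → ℤ) (c0 : ι → ℝ) (w : Fin d → ℝ)
    (hw : ∀ i, c0 i ≤ ∑ j, w j * (r i j : ℝ)) (H : ℤ) (hH : 1 ≤ H) (hr : ∀ i j, |r i j| ≤ H)
    (R : ℝ) (hR0 : 0 < R) (hc0 : ∀ i, |c0 i| ≤ R) :
    ∃ z : Fin d → ℝ, (∀ i, c0 i ≤ ∑ j, z j * r i j) ∧ ∀ j, |z j| ≤ R * (d.factorial * (H : ℝ) ^ d) := by
  classical
  set σ : Fin d → ℤ := fun j => if 0 ≤ w j then 1 else -1 with hσ
  set Rz : ι ⊕ Fin d → Fin d → ℤ := Sum.elim r (fun j => Pi.single j (σ j)) with hRz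
  set c : ι ⊕ Fin d → ℝ := Sum.elim c0 (fun _ => 0) with hc
  set Rr : ι ⊕ Fin d → Fin d → ℝ := fun k j => (Rz k j : ℝ) with hRr0
  have hσ0 : ∀ j, (σ j : ℝ) ≠ 0 := by
    intro j
    simp only [hσ]
    split_ifs <;> norm_num
  have hRr : ∀ j, Rr (Sum.inr j) = Pi.single j (σ j : ℝ) := by
    intro j
    ext i
    simp only [hRr0, hRz, Sum.elim_inr]
    by_cases h : i = j
    · subst h; simp
    · simp [h]
  have hfeas : ∀ k, c k ≤ w ⬝ᵥ Rr k := by
    intro k
    cases k with
    | inl i =>
      have := hw i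
      simpa [hc, hRr0, hRz, dotProduct] using this
    | inr j =>
      rw [hRr, dotProduct_single]
      simp only [hc, Sum.elim_inr, hσ]
      split_ifs with h
      · simpa using h
      · push_cast; nlinarith [not_le.1 h]
  obtain ⟨w', hw1, hspan⟩ := exists_vertex Rr c
    (fun j => ⟨Sum.inr j, (σ j : ℝ), hσ0 j, hRr j⟩) _ w hfeas rfl
  -- a basis of tight rows
  obtain ⟨b, hb1, hb2, hb3⟩ := exists_linearIndependent ℝ (Rr '' {k | w' ⬝ᵥ Rr k = c k})
  rw [hspan] at hb2
  have hbfin : b.Finite := (Set.toFinite _).subset hb1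
  have : Fintype b := hbfin.fintype
  have hcard : Fintype.card b = d := by
    have B := Module.Basis.mk hb3 (by rw [Subtype.range_coe, hb2])
    have h1 := Module.finrank_eq_card_basis B
    rw [Module.finrank_fintype_fun_eq_card, Fintype.card_fin] at h1
    exact h1.symm
  let eb : Fin d ≃ b := (Fintype.equivFinOfCardEq hcard).symm
  have hJ : ∀ k : Fin d, ∃ κ, w' ⬝ᵥ Rr κ = c κ ∧ Rr κ = (eb k : Fin d → ℝ) := by
    intro k
    obtain ⟨κ, h1, h2⟩ := hb1 (eb k).2
    exact ⟨κ, h1, h2⟩
  choose J hJ1 hJ2 using hJ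
  set A : Matrix (Fin d) (Fin d) ℤ := Matrix.of fun k => Rz (J k) with hA
  set AR : Matrix (Fin d) (Fin d) ℝ := A.map (Int.castRingHom ℝ) with hAR
  have hARrow : ∀ k, AR k = Rr (J k) := fun k => rfl
  have hdetR : AR.det ≠ 0 := by
    have h1 : LinearIndependent ℝ (fun k => AR k) := by
      have h2 := hb3.comp eb eb.injective
      have h3 : (fun k => AR k) = (Subtype.val ∘ eb : Fin d → Fin d → ℝ) := by
        funext k
        rw [hARrow, hJ2]
        rfl
      rw [h3]
      exact h2
    have h2 := Matrix.linearIndependent_rows_iff_isUnit.1 h1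
    exact ((Matrix.isUnit_iff_isUnit_det _).1 h2).ne_zero
  have hdetcast : AR.det = (A.det : ℝ) := (RingHom.map_det (Int.castRingHom ℝ) A).symm
  have hAdet : A.det ≠ 0 := by
    intro h
    rw [hdetcast, h] at hdetR
    exact hdetR (by simp)
  have hAR1 : 1 ≤ |AR.det| := by
    rw [hdetcast]
    have : 1 ≤ |A.det| := Int.one_le_abs hAdet
    exact_mod_cast this
  -- bounds
  have hRzb : ∀ k j, |Rz k j| ≤ H := by
    intro k j
    cases k with
    | inl i => exact hr i j
    | inr i =>
      simp only [hRz, Sum.elim_inr]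
      by_cases h : j = i
      · subst h
        simp only [Pi.single_eq_same, hσ]
        split_ifs <;> simpa using hH
      · rw [Pi.single_eq_of_ne h]
        simp; omega
  have hcb : ∀ k, |c k| ≤ R := by
    intro k
    cases k with
    | inl i => simpa [hc] using hc0 i
    | inr i => simp [hc]; exact hR0.le
  set cJ : Fin d → ℝ := fun k => c (J k) with hcJ
  set c1 : Fin d → ℝ := fun k => c (J k) / R with hc1
  have hc1b : ∀ k, |c1 k| ≤ 1 := by
    intro k
    rw [hc1]
    beta_reduce
    rw [abs_div, abs_of_pos hR0, div_le_one hR0]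
    exact hcb _
  have hcJ1 : cJ = R • c1 := by
    funext k
    simp only [hcJ, hc1, Pi.smul_apply, smul_eq_mul]
    field_simp
  have hAw : AR *ᵥ w' = cJ := by
    funext k
    change AR k ⬝ᵥ w' = _
    rw [hARrow, dotProduct_comm, hJ1]
  have hyw : ∀ j, AR.cramer cJ j = AR.det * w' j := by
    have h1 : AR.cramer cJ = AR.det • w' := by
      rw [cramer_eq_adjugate_mulVec, ← hAw, mulVec_mulVec, adjugate_mul, smul_mulVec, one_mulVec]
    intro j
    rw [h1, Pi.smul_apply, smul_eq_mul]
  have hyb : ∀ j, |AR.cramer cJ j| ≤ R * (d.factorial * (H : ℝ) ^ d) := by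
    intro j
    rw [hcJ1, map_smul, Pi.smul_apply, smul_eq_mul, abs_mul, abs_of_pos hR0]
    refine mul_le_mul_of_nonneg_left ?_ hR0.le
    rw [cramer_apply]
    have hH1 : (1 : ℝ) ≤ (H : ℝ) := by exact_mod_cast hH
    have h1 := Matrix.det_le (A := AR.updateCol j c1) (abv := AbsoluteValue.abs) (x := (H : ℝ)) (by
      intro p q
      rw [Matrix.updateCol_apply]
      simp only [AbsoluteValue.abs_apply]
      split_ifs
      · exact (hc1b _).trans hH1
      · have h2 := hRzb (J p) q
        have h3 : AR p q = (Rz (J p) q : ℝ) := rfl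
        rw [h3]
        exact_mod_cast h2)
    rw [Fintype.card_fin, AbsoluteValue.abs_apply, nsmul_eq_mul] at h1
    exact h1
  refine ⟨w', fun i => ?_, fun j => ?_⟩
  · have := hw1 (Sum.inl i)
    simpa [hc, hRr0, hRz, dotProduct] using this
  · have h1 := hyb j
    rw [hyw, abs_mul] at h1
    have h2 : |w' j| ≤ |AR.det| * |w' j| := le_mul_of_one_le_left (abs_nonneg _) hAR1
    linarith

end Pool.Agent.TH743.KG
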