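import Pool.Agent.TH684.LT.Gen
import Pool.Agent.TH743.KG.Vert

/-!
# Exclusion at a flat position, with an additional bounded part
-/

set_option autoImplicit false

namespace Pool.Agent.TH743.KG

open Matrix Finset
open Pool.Agent.TH684.LT (qf QM QM_posDef QM_form cs_qf qf_nonneg sum_qf_le pert)

variable {d : ℕ}

/-- At a flat position a vector of signs whose combination is short is not realized by a linear
functional plus a part that is bounded and nearly orthogonal to the signs. -/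
theorem exclude_flat_k {ι : Type*} [Fintype ι] (hd : 1 ≤ d) (a : ι → Fin d → ℝ) (s : ι → ℝ)
    (hs : ∀ t, 0 < s t)
    (hflat : ∀ t, (Fintype.card ι : ℝ) * qf (QM fun t => s t • a t) (s t • a t) ≤ 4 * d)
    (p : ℝ) (hp : 0 ≤ p) (hm : 128 * (d : ℝ) ^ 2 * (3 + 2 * p) ^ 2 < Fintype.card ι)
    (M : ι → ℝ) (hM : ∀ t, M t = 1 ∨ M t = -1)
    (hq : qf (QM fun t => s t • a t) (∑ t, M t • (s t • a t)) ≤ 2 * d)
    (w : Fin d → ℝ) (y : ι → ℝ) (hw : ∀ t, 1 ≤ M t * (y t + w ⬝ᵥ a t)) (hy : ∀ t, y t ^ 2 ≤ p)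
    (hK : (∑ t, M t * (s t * y t)) ^ 2 ≤ 4 * p * ∑ t, s t ^ 2)
    (hsm : ∀ t, (Fintype.card ι : ℝ) * s t ^ 2 ≤ 8 * d * ∑ t, s t ^ 2)
    (hw0 : w ⬝ᵥ w ≤ ∑ t, s t ^ 2) : False := by
  set v : ι → Fin d → ℝ := fun t => s t • a t with hv
  set Q := QM v with hQ
  have hP : Q.PosDef := QM_posDef v
  set m : ℝ := (Fintype.card ι : ℝ) with hmdef
  have hd' : (1 : ℝ) ≤ d := by exact_mod_cast hd
  set α : ℝ := 3 + 2 * p with hα
  have hα3 : 3 ≤ α := by linarith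
  have hm0 : 0 < m := lt_of_le_of_lt (by positivity) hm
  set x : ι → ℝ := fun t => M t * (s t * (y t + w ⬝ᵥ a t)) with hx
  have hM2 : ∀ t, M t ^ 2 = 1 := by
    intro t
    rcases hM t with h | h <;> rw [h] <;> norm_num
  have hx1 : ∀ t, s t ≤ x t := by
    intro t
    have h1 : x t = s t * (M t * (y t + w ⬝ᵥ a t)) := by
      simp only [hx]; ring
    rw [h1]
    exact le_mul_of_one_le_right (hs t).le (hw t)
  have hx0 : ∀ t, 0 < x t := fun t => (hs t).trans_le (hx1 t)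
  have hwv : ∀ t, w ⬝ᵥ v t = s t * (w ⬝ᵥ a t) := by
    intro t
    simp only [hv, dotProduct_smul, smul_eq_mul]
  have hxe : ∀ t, x t = M t * (s t * y t) + M t * (w ⬝ᵥ v t) := by
    intro t
    rw [hwv]
    simp only [hx]
    ring
  set S2 : ℝ := ∑ t, x t ^ 2 with hS2
  set S1 : ℝ := ∑ t, x t with hS1
  set S0 : ℝ := ∑ t, s t ^ 2 with hS0
  set Z : ℝ := w ⬝ᵥ (Q *ᵥ w) with hZ
  have hS02 : S0 ≤ S2 := Finset.sum_le_sum fun t _ => pow_le_pow_left₀ (hs t).le (hx1 t) 2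
  have hne : Nonempty ι := by
    rw [← Fintype.card_pos_iff]
    have h1 : (0 : ℝ) < (Fintype.card ι : ℝ) := hm0
    exact_mod_cast h1
  obtain ⟨t0⟩ := hne
  have hS0pos : 0 < S0 := by
    have h3 : s t0 ^ 2 ≤ S0 := Finset.single_le_sum (f := fun t => s t ^ 2)
      (fun t _ => sq_nonneg _) (Finset.mem_univ t0)
    have h4 := hs t0
    have : 0 < s t0 ^ 2 := by positivity
    linarith
  have hS2pos : 0 < S2 := by linarith
  have hwvx : ∀ t, (w ⬝ᵥ v t) ^ 2 ≤ 2 * x t ^ 2 + 2 * p * s t ^ 2 := by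
    intro t
    have h1 : w ⬝ᵥ v t = M t * x t - s t * y t := by
      rw [hxe]
      have := hM2 t
      have h2 : M t * (M t * (s t * y t) + M t * (w ⬝ᵥ v t)) =
          M t ^ 2 * (s t * y t) + M t ^ 2 * (w ⬝ᵥ v t) := by ring
      rw [h2, this]
      ring
    have h2 : (M t * x t) ^ 2 = x t ^ 2 := by rw [mul_pow, hM2, one_mul]
    have h3 : (s t * y t) ^ 2 ≤ p * s t ^ 2 := by
      rw [mul_pow, mul_comm]
      exact mul_le_mul_of_nonneg_right (hy t) (sq_nonneg _)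
    rw [h1]
    nlinarith [sq_nonneg (M t * x t + s t * y t)]
  have hZ1 : Z ≤ α * S2 := by
    have h1 : Z = w ⬝ᵥ w + ∑ t, (w ⬝ᵥ v t) ^ 2 := by rw [hZ, hQ, QM_form]
    have h2 : ∑ t, (w ⬝ᵥ v t) ^ 2 ≤ 2 * S2 + 2 * p * S0 := by
      refine (Finset.sum_le_sum fun t _ => hwvx t).trans (le_of_eq ?_)
      rw [Finset.sum_add_distrib, ← Finset.mul_sum, ← Finset.mul_sum]
    have h3 : 2 * p * S0 ≤ 2 * p * S2 := mul_le_mul_of_nonneg_left hS02 (by positivity)
    rw [h1, hα]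
    linarith
  have hZ0 : 0 ≤ Z := by
    have h1 : Z = w ⬝ᵥ w + ∑ t, (w ⬝ᵥ v t) ^ 2 := by rw [hZ, hQ, QM_form]
    have h2 : 0 ≤ w ⬝ᵥ w := Finset.sum_nonneg fun i _ => mul_self_nonneg _
    have h3 : 0 ≤ ∑ t, (w ⬝ᵥ v t) ^ 2 := Finset.sum_nonneg fun i _ => sq_nonneg _
    linarith
  set B : ℝ := 16 * d * α / m * S2 with hB
  have hB0 : 0 ≤ B := by positivity
  have hxB : ∀ t, x t ^ 2 ≤ B := by
    intro t
    have h1 : (w ⬝ᵥ v t) ^ 2 ≤ Z * qf Q (v t) := cs_qf hP w (v t)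
    have h2 : m * (w ⬝ᵥ v t) ^ 2 ≤ 4 * d * (α * S2) := by
      calc m * (w ⬝ᵥ v t) ^ 2 ≤ m * (Z * qf Q (v t)) := mul_le_mul_of_nonneg_left h1 hm0.le
        _ = Z * (m * qf Q (v t)) := by ring
        _ ≤ Z * (4 * d) := mul_le_mul_of_nonneg_left (hflat t) hZ0
        _ ≤ (α * S2) * (4 * d) := mul_le_mul_of_nonneg_right hZ1 (by positivity)
        _ = _ := by ring
    have h3 : m * (s t * y t) ^ 2 ≤ 8 * d * (p * S2) := by
      have h4 : (s t * y t) ^ 2 ≤ p * s t ^ 2 := by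
        rw [mul_pow, mul_comm]
        exact mul_le_mul_of_nonneg_right (hy t) (sq_nonneg _)
      calc m * (s t * y t) ^ 2 ≤ m * (p * s t ^ 2) := mul_le_mul_of_nonneg_left h4 hm0.le
        _ = p * (m * s t ^ 2) := by ring
        _ ≤ p * (8 * d * S0) := mul_le_mul_of_nonneg_left (hsm t) hp
        _ ≤ p * (8 * d * S2) := mul_le_mul_of_nonneg_left
            (mul_le_mul_of_nonneg_left hS02 (by positivity)) hp
        _ = _ := by ring
    have h5 : x t ^ 2 ≤ 2 * (s t * y t) ^ 2 + 2 * (w ⬝ᵥ v t) ^ 2 := by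
      have h6 : x t ^ 2 = (s t * y t + w ⬝ᵥ v t) ^ 2 := by
        rw [hxe, ← mul_add, mul_pow, hM2, one_mul]
      rw [h6]
      nlinarith [sq_nonneg (s t * y t - w ⬝ᵥ v t)]
    have h7 : m * x t ^ 2 ≤ 16 * d * α * S2 := by
      have h8 : m * x t ^ 2 ≤ m * (2 * (s t * y t) ^ 2 + 2 * (w ⬝ᵥ v t) ^ 2) :=
        mul_le_mul_of_nonneg_left h5 hm0.le
      have h9 : 8 * (d : ℝ) * (2 * p * S2) ≤ 8 * d * (α * S2) := by
        refine mul_le_mul_of_nonneg_left ?_ (by positivity)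
        exact mul_le_mul_of_nonneg_right (by rw [hα]; linarith) hS2pos.le
      linarith
    rw [hB, div_mul_eq_mul_div, le_div_iff₀ hm0]
    linarith
  have hS2B : S2 ≤ Real.sqrt B * S1 := by
    rw [hS2, hS1, Finset.mul_sum]
    refine Finset.sum_le_sum fun t _ => ?_
    rw [sq]
    exact mul_le_mul_of_nonneg_right (Real.le_sqrt_of_sq_le (hxB t)) (hx0 t).le
  have hS1Z : S1 ^ 2 ≤ 8 * d * α * S2 := by
    have h2 := cs_qf hP w (∑ t, M t • v t)
    have h3 : w ⬝ᵥ (∑ t, M t • v t) = ∑ t, M t * (w ⬝ᵥ v t) := by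
      rw [dotProduct_sum]
      refine Finset.sum_congr rfl fun t _ => ?_
      rw [dotProduct_smul, smul_eq_mul]
    have h4 : S1 = ∑ t, M t * (s t * y t) + ∑ t, M t * (w ⬝ᵥ v t) := by
      rw [hS1, ← Finset.sum_add_distrib]
      exact Finset.sum_congr rfl fun t _ => hxe t
    rw [h3] at h2
    have h5 : (∑ t, M t * (w ⬝ᵥ v t)) ^ 2 ≤ α * S2 * (2 * d) := by
      refine h2.trans ((mul_le_mul_of_nonneg_left hq hZ0).trans ?_)
      exact mul_le_mul_of_nonneg_right hZ1 (by positivity)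
    have h6 : 4 * p * S0 ≤ 4 * p * S2 := mul_le_mul_of_nonneg_left hS02 (by positivity)
    have h7 : S1 ^ 2 ≤ 2 * (∑ t, M t * (s t * y t)) ^ 2 + 2 * (∑ t, M t * (w ⬝ᵥ v t)) ^ 2 := by
      rw [h4]
      generalize (∑ t, M t * (s t * y t)) = a1
      generalize (∑ t, M t * (w ⬝ᵥ v t)) = a2
      nlinarith [sq_nonneg (a1 - a2)]
    have h8 : 4 * (2 * p * S2) ≤ 4 * d * (α * S2) := by
      have h9 : 2 * p * S2 ≤ α * S2 :=
        mul_le_mul_of_nonneg_right (by rw [hα]; linarith) hS2pos.le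
      have h10 : 0 ≤ α * S2 := by positivity
      have h11 : 1 * (α * S2) ≤ d * (α * S2) := mul_le_mul_of_nonneg_right hd' h10
      linarith
    linarith
  have h5 : S2 ^ 2 ≤ B * (8 * d * α * S2) := by
    calc S2 ^ 2 ≤ (Real.sqrt B * S1) ^ 2 := pow_le_pow_left₀ hS2pos.le hS2B 2
      _ = B * S1 ^ 2 := by rw [mul_pow, Real.sq_sqrt hB0]
      _ ≤ B * (8 * d * α * S2) := mul_le_mul_of_nonneg_left hS1Z hB0
  have h6 : m * S2 ^ 2 ≤ 128 * d ^ 2 * α ^ 2 * S2 ^ 2 := by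
    have h7 : B * (8 * d * α * S2) = (128 * d ^ 2 * α ^ 2 * S2 ^ 2) / m := by rw [hB]; ring
    rw [h7, le_div_iff₀ hm0] at h5
    linarith
  have h9 : 0 < S2 ^ 2 := by positivity
  have h10 : 128 * (d : ℝ) ^ 2 * α ^ 2 * S2 ^ 2 < m * S2 ^ 2 := mul_lt_mul_of_pos_right hm h9
  linarith

/-- **The exclusion.** At a flat position of the perturbed points, a label with a short combination
is not realized with margin one by an affine functional plus a bounded part that is nearly orthogonal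
to the label. -/
theorem exclude_main_k {m : ℕ} (B H : ℕ) (hH : 1 ≤ H) (hd : 0 < d) (F : Fin m → Fin d → ℤ)
    (hF : ∀ t j, |F t j| ≤ H) (hF0 : ∀ t, F t ⟨0, hd⟩ = 1) (p : ℝ) (hp : 0 ≤ p)
    (hB2 : d * (d.factorial * H ^ d) * m ^ d * m < B)
    (hm : 128 * (d : ℝ) ^ 2 * (3 + 8 * p) ^ 2 < m) (e : Fin m → ℕ)
    (hflat : ∀ t, (m : ℝ) * qf (QM fun t => (2 : ℝ) ^ e t • fun j => (pert B F t j : ℝ))
      ((2 : ℝ) ^ e t • fun j => (pert B F t j : ℝ)) ≤ 4 * d)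
    (M : Fin m → ℤ) (hM : ∀ t, M t = 1 ∨ M t = -1)
    (hq : qf (QM fun t => (2 : ℝ) ^ e t • fun j => (pert B F t j : ℝ))
      (∑ t, (M t : ℝ) • ((2 : ℝ) ^ e t • fun j => (pert B F t j : ℝ))) ≤ 2 * d)
    (y : Fin m → ℝ) (hy : ∀ t, y t ^ 2 ≤ p)
    (hK : (∑ t, (M t : ℝ) * ((2 : ℝ) ^ e t * y t)) ^ 2 ≤ 4 * p * ∑ t, ((2 : ℝ) ^ e t) ^ 2) :
    ¬ ∃ w : Fin d → ℝ, ∀ t, 1 ≤ (M t : ℝ) * (y t + ∑ j, w j * (F t j : ℝ)) := by
  rintro ⟨w, hw⟩
  have hd' : (1 : ℝ) ≤ d := by exact_mod_cast hd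
  have hm0 : (0 : ℝ) < m := lt_of_le_of_lt (by positivity) hm
  have hMr : ∀ t, (M t : ℝ) ^ 2 = 1 := by
    intro t
    rcases hM t with h | h <;> rw [h] <;> norm_num
  have hMabs : ∀ t, |(M t : ℝ)| = 1 := by
    intro t
    rcases hM t with h | h <;> rw [h] <;> norm_num
  set R : ℝ := 1 + Real.sqrt p with hR
  have hR0 : 0 < R := by have := Real.sqrt_nonneg p; linarith
  have hyR : ∀ t, |y t| ≤ Real.sqrt p := fun t => Real.abs_le_sqrt (hy t)
  have hRm : 2 * R ≤ m := by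
    have h1 : Real.sqrt p ≤ 1 + p := by
      have h2 := Real.sq_sqrt hp
      nlinarith [Real.sqrt_nonneg p, sq_nonneg (Real.sqrt p - 1)]
    have h3 : 4 + 2 * p ≤ 128 * (d : ℝ) ^ 2 * (3 + 8 * p) ^ 2 := by
      have h4 : (1 : ℝ) ≤ (d : ℝ) ^ 2 := one_le_pow₀ hd'
      have h5 : 4 + 2 * p ≤ (3 + 8 * p) ^ 2 := by nlinarith
      have h6 : 0 ≤ (3 + 8 * p) ^ 2 := by positivity
      nlinarith
    rw [hR]
    linarith
  set W : ℝ := d.factorial * (H : ℝ) ^ d with hW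
  have hW0 : 0 ≤ W := by positivity
  obtain ⟨z, hz1, hz2⟩ := small_real (fun t j => M t * F t j) (fun t => 1 - (M t : ℝ) * y t) w (by
    intro t
    have h1 := hw t
    have h2 : ∑ j, w j * ((M t * F t j : ℤ) : ℝ) = (M t : ℝ) * ∑ j, w j * (F t j : ℝ) := by
      rw [Finset.mul_sum]
      refine Finset.sum_congr rfl fun j _ => ?_
      push_cast; ring
    rw [h2]
    linarith) (H : ℤ) (by exact_mod_cast hH) (by
    intro t j
    rw [abs_mul]
    rcases hM t with h | h <;> rw [h] <;> simpa using hF t j) R hR0 (by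
    intro t
    have h1 : |1 - (M t : ℝ) * y t| ≤ 1 + |y t| := by
      have h2 := abs_sub (1 : ℝ) ((M t : ℝ) * y t)
      rw [abs_mul, hMabs, one_mul, abs_one] at h2
      exact h2
    exact h1.trans (by rw [hR]; linarith [hyR t]))
  have hz2' : ∀ j, |z j| ≤ R * W := by
    intro j
    have := hz2 j
    simpa [hW] using this
  have hBr : (d : ℝ) * W * (m : ℝ) ^ d * m < B := by
    have : ((d * (d.factorial * H ^ d) * m ^ d * m : ℕ) : ℝ) < B := by exact_mod_cast hB2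
    push_cast at this
    exact this
  have hm1 : (1 : ℝ) ≤ m := by
    have : 0 < m := by exact_mod_cast hm0
    exact_mod_cast this
  have hmd : (1 : ℝ) ≤ (m : ℝ) ^ d := one_le_pow₀ hm1
  have hB0 : (0 : ℝ) < B := lt_of_le_of_lt (by positivity) hBr
  have hkey : 2 * (d * (R * W) * (m : ℝ) ^ d) ≤ B := by
    have h1 : 2 * (d * (R * W) * (m : ℝ) ^ d) = (2 * R) * (d * W * (m : ℝ) ^ d) := by ring
    have h2 : (2 * R) * (d * W * (m : ℝ) ^ d) ≤ m * (d * W * (m : ℝ) ^ d) :=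
      mul_le_mul_of_nonneg_right hRm (by positivity)
    linarith
  set w' : Fin d → ℝ := fun j => 2 / B * z j with hw'
  have hs1 : ∀ t : Fin m, (1 : ℝ) ≤ ((2 : ℝ) ^ e t) ^ 2 := fun t =>
    one_le_pow₀ (one_le_pow₀ (by norm_num))
  have hS0 : (1 : ℝ) ≤ ∑ t : Fin m, ((2 : ℝ) ^ e t) ^ 2 := by
    have h1 : ∑ _t : Fin m, (1 : ℝ) ≤ ∑ t : Fin m, ((2 : ℝ) ^ e t) ^ 2 :=
      Finset.sum_le_sum fun t _ => hs1 t
    rw [Finset.sum_const, Finset.card_univ, Fintype.card_fin, nsmul_eq_mul, mul_one] at h1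
    linarith
  refine exclude_flat_k (d := d) (ι := Fin m) hd (fun t j => (pert B F t j : ℝ))
    (fun t => (2 : ℝ) ^ e t) (fun t => by positivity)
    (fun t => by rw [Fintype.card_fin]; exact hflat t) (4 * p) (by positivity)
    (by rw [Fintype.card_fin]; rw [show 3 + 2 * (4 * p) = 3 + 8 * p by ring]; exact hm)
    (fun t => (M t : ℝ)) (fun t => by rcases hM t with h | h <;> rw [h] <;> simp) hq w'
    (fun t => 2 * y t) ?_ ?_ ?_ ?_ ?_
  · intro t
    have h1 := hz1 t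
    have h2 : ∑ j, z j * ((M t * F t j : ℤ) : ℝ) = (M t : ℝ) * ∑ j, z j * (F t j : ℝ) := by
      rw [Finset.mul_sum]
      refine Finset.sum_congr rfl fun j _ => ?_
      push_cast; ring
    rw [h2] at h1
    set τ : ℝ := ∑ j : Fin d, z j * ((t : ℕ) : ℝ) ^ (j : ℕ) with hτ
    have h3 : w' ⬝ᵥ (fun j => (pert B F t j : ℝ)) = 2 * ∑ j, z j * (F t j : ℝ) + 2 / B * τ := by
      rw [dotProduct, hτ, Finset.mul_sum, Finset.mul_sum, ← Finset.sum_add_distrib]
      refine Finset.sum_congr rfl fun j _ => ?_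
      simp only [hw', pert]
      push_cast
      field_simp
    have h4 : |τ| ≤ d * (R * W) * (m : ℝ) ^ d := by
      rw [hτ]
      refine (Finset.abs_sum_le_sum_abs _ _).trans ?_
      have h5 : ∀ j ∈ (univ : Finset (Fin d)), |z j * ((t : ℕ) : ℝ) ^ (j : ℕ)| ≤
          R * W * (m : ℝ) ^ d := by
        intro j _
        rw [abs_mul, abs_of_nonneg (show (0 : ℝ) ≤ ((t : ℕ) : ℝ) ^ (j : ℕ) by positivity)]
        refine mul_le_mul (hz2' j) ?_ (by positivity) (by positivity)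
        calc ((((t : ℕ)) : ℝ)) ^ (j : ℕ) ≤ (m : ℝ) ^ (j : ℕ) :=
              pow_le_pow_left₀ (by positivity) (by exact_mod_cast t.isLt.le) _
          _ ≤ (m : ℝ) ^ d := pow_le_pow_right₀ hm1 j.isLt.le
      refine (Finset.sum_le_sum h5).trans ?_
      rw [Finset.sum_const, Finset.card_univ, Fintype.card_fin, nsmul_eq_mul]
      exact le_of_eq (by ring)
    rw [h3]
    have h5 : |(M t : ℝ) * (2 / B * τ)| ≤ 1 := by
      rw [abs_mul, hMabs, one_mul, abs_mul, abs_of_pos (show (0 : ℝ) < 2 / B by positivity),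
        div_mul_eq_mul_div, div_le_one hB0]
      linarith
    have h6 := (abs_le.1 h5).1
    have h7 : (M t : ℝ) * (2 * y t + (2 * ∑ j, z j * (F t j : ℝ) + 2 / B * τ)) =
        2 * ((M t : ℝ) * y t + (M t : ℝ) * ∑ j, z j * (F t j : ℝ)) + (M t : ℝ) * (2 / B * τ) := by
      ring
    rw [h7]
    linarith
  · intro t
    have := hy t
    nlinarith
  · have h1 : ∑ t, (M t : ℝ) * ((2 : ℝ) ^ e t * (2 * y t)) =
        2 * ∑ t, (M t : ℝ) * ((2 : ℝ) ^ e t * y t) := by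
      rw [Finset.mul_sum]
      exact Finset.sum_congr rfl fun t _ => by ring
    rw [h1, mul_pow]
    nlinarith
  · intro t
    rw [Fintype.card_fin]
    have hP := QM_posDef (fun t : Fin m => (2 : ℝ) ^ e t • fun j : Fin d => (pert B F t j : ℝ))
    have h1 := cs_qf hP (Pi.single ⟨0, hd⟩ 1) ((2 : ℝ) ^ e t • fun j => (pert B F t j : ℝ))
    have hpt : ∀ t : Fin m, (pert B F t ⟨0, hd⟩ : ℝ) = B + 1 := by
      intro t
      rw [pert, hF0]
      push_cast
      simp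
    rw [QM_form] at h1
    simp only [single_dotProduct, Pi.single_eq_same, one_mul, Pi.smul_apply, smul_eq_mul,
      hpt] at h1
    set S0 : ℝ := ∑ t : Fin m, ((2 : ℝ) ^ e t) ^ 2 with hS0d
    have h2 : ∑ t : Fin m, ((2 : ℝ) ^ e t * ((B : ℝ) + 1)) ^ 2 = ((B : ℝ) + 1) ^ 2 * S0 := by
      rw [hS0d, Finset.mul_sum]
      exact Finset.sum_congr rfl fun t _ => by ring
    rw [h2] at h1
    set q := qf (QM fun t => (2 : ℝ) ^ e t • fun j => (pert B F t j : ℝ))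
      ((2 : ℝ) ^ e t • fun j => (pert B F t j : ℝ)) with hqdef
    have h3 : (m : ℝ) * q ≤ 4 * d := hflat t
    have h4 : (1 : ℝ) ≤ ((B : ℝ) + 1) ^ 2 * S0 := by
      have : (1 : ℝ) ≤ ((B : ℝ) + 1) ^ 2 := one_le_pow₀ (by linarith)
      nlinarith
    have h5 : (m : ℝ) * ((2 : ℝ) ^ e t * ((B : ℝ) + 1)) ^ 2 ≤
        (2 * (((B : ℝ) + 1) ^ 2 * S0)) * (4 * d) := by
      have hq0 : 0 ≤ q := qf_nonneg hP _
      calc (m : ℝ) * ((2 : ℝ) ^ e t * ((B : ℝ) + 1)) ^ 2 ≤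
            m * ((1 + ((B : ℝ) + 1) ^ 2 * S0) * q) := mul_le_mul_of_nonneg_left h1 hm0.le
        _ = (1 + ((B : ℝ) + 1) ^ 2 * S0) * (m * q) := by ring
        _ ≤ (1 + ((B : ℝ) + 1) ^ 2 * S0) * (4 * d) :=
            mul_le_mul_of_nonneg_left h3 (by positivity)
        _ ≤ _ := mul_le_mul_of_nonneg_right (by linarith) (by positivity)
    have h6 : (0 : ℝ) < ((B : ℝ) + 1) ^ 2 := by positivity
    have h7 : ((B : ℝ) + 1) ^ 2 * ((m : ℝ) * ((2 : ℝ) ^ e t) ^ 2) ≤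
        ((B : ℝ) + 1) ^ 2 * (8 * d * S0) := by
      calc ((B : ℝ) + 1) ^ 2 * ((m : ℝ) * ((2 : ℝ) ^ e t) ^ 2) =
            (m : ℝ) * ((2 : ℝ) ^ e t * ((B : ℝ) + 1)) ^ 2 := by ring
        _ ≤ _ := h5
        _ = _ := by ring
    exact le_of_mul_le_mul_left h7 h6
  · refine le_trans ?_ hS0
    have h1 : ∀ j ∈ (univ : Finset (Fin d)), w' j * w' j ≤ (1 / d : ℝ) := by
      intro j _
      have h2 : |w' j| ≤ 1 / d := by
        simp only [hw']
        rw [abs_mul, abs_of_pos (show (0 : ℝ) < 2 / B by positivity), div_mul_eq_mul_div,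
          div_le_div_iff₀ hB0 (by linarith)]
        have h3 := hz2' j
        have h4 : 2 * |z j| * d ≤ 2 * (R * W) * d := by
          refine mul_le_mul_of_nonneg_right ?_ (by positivity)
          linarith
        have h5 : 2 * (R * W) * d ≤ 2 * (d * (R * W) * (m : ℝ) ^ d) := by
          have h6 : 0 ≤ 2 * (R * W) * (d : ℝ) := by positivity
          nlinarith
        linarith
      have h3 : w' j * w' j = |w' j| * |w' j| := by rw [← abs_mul, abs_mul_self]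
      rw [h3]
      have h4 : (1 / d : ℝ) ≤ 1 := by
        rw [div_le_one (by linarith)]
        exact hd'
      have h5 := abs_nonneg (w' j)
      nlinarith
    refine (Finset.sum_le_sum h1).trans ?_
    rw [Finset.sum_const, Finset.card_univ, Fintype.card_fin, nsmul_eq_mul]
    have : (d : ℝ) ≠ 0 := by linarith
    field_simp
    exact le_refl _

end Pool.Agent.TH743.KG
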