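import Pool.Agent.TH684.LT.Spec
import Pool.Agent.TH743.KG.Flat

/-!
# Exclusion of a sign vector for threshold gates with a kernel part: the algorithm
-/

set_option autoImplicit false

namespace Pool.Agent.TH743.KG

open Matrix Finset Pool.Agent.NPC
open Pool.Agent.H579R2.Spt (par sgn par_orth par_norm)
open Pool.Agent.TH684.LT

/-! ### Labels -/

section labels

variable {d : ℕ} {ι Λ : Type*} [Fintype ι]

theorem sum_labels (L : Finset Λ) (M : Λ → ι → ℝ)
    (horth : ∀ t t', t ≠ t' → ∑ l ∈ L, M l t * M l t' = 0)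
    (hnorm : ∀ t, ∑ l ∈ L, M l t * M l t = L.card) (G : ι → ι → ℝ) :
    ∑ l ∈ L, ∑ t, ∑ t', (M l t * M l t') * G t t' = L.card * ∑ t, G t t := by
  classical
  rw [Finset.sum_comm, Finset.mul_sum]
  refine Finset.sum_congr rfl fun t _ => ?_
  rw [Finset.sum_comm]
  have h3 : ∀ t' ∈ (univ : Finset ι), ∑ l ∈ L, (M l t * M l t') * G t t' =
      if t' = t then (L.card : ℝ) * G t t else 0 := by
    intro t' _
    rw [← Finset.sum_mul]
    by_cases h : t' = t
    · subst h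
      rw [if_pos rfl, hnorm]
    · rw [if_neg h, horth t t' (fun h' => h h'.symm), zero_mul]
  rw [Finset.sum_congr rfl h3, Finset.sum_ite_eq' univ t, if_pos (Finset.mem_univ t)]

theorem exists_label_k (L : Finset Λ) (M : Λ → ι → ℝ) (hL : L.Nonempty) (hd : 0 < d)
    (horth : ∀ t t', t ≠ t' → ∑ l ∈ L, M l t * M l t' = 0)
    (hnorm : ∀ t, ∑ l ∈ L, M l t * M l t = L.card) (v : ι → Fin d → ℝ) (G : ι → ι → ℝ)
    (hG : ∀ l, 0 ≤ ∑ t, ∑ t', (M l t * M l t') * G t t') (hG0 : 0 ≤ ∑ t, G t t) :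
    ∃ l ∈ L, qf (QM v) (∑ t, M l t • v t) ≤ 2 * d ∧
      ∑ t, ∑ t', (M l t * M l t') * G t t' ≤ 2 * (∑ t, G t t + 1) := by
  classical
  by_contra hcon
  push Not at hcon
  have h2 : ∀ l, qf (QM v) (∑ t, M l t • v t) =
      ∑ t, ∑ t', (M l t * M l t') * (v t ⬝ᵥ ((QM v)⁻¹ *ᵥ v t')) := by
    intro l
    rw [qf, sum_dotProduct]
    refine Finset.sum_congr rfl fun t _ => ?_
    rw [smul_dotProduct, Matrix.mulVec_sum, dotProduct_sum, smul_eq_mul, Finset.mul_sum]
    refine Finset.sum_congr rfl fun t' _ => ?_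
    rw [mulVec_smul, dotProduct_smul, smul_eq_mul]
    ring
  have h1 : ∑ l ∈ L, qf (QM v) (∑ t, M l t • v t) = L.card * ∑ t, qf (QM v) (v t) := by
    rw [Finset.sum_congr rfl fun l _ => h2 l,
      sum_labels L M horth hnorm fun t t' => v t ⬝ᵥ ((QM v)⁻¹ *ᵥ v t')]
    rfl
  have h3 := sum_labels L M horth hnorm G
  set S : ℝ := ∑ t, G t t with hS
  have h4 : ∑ _l ∈ L, (2 * (d : ℝ) * (S + 1)) < ∑ l ∈ L, (qf (QM v) (∑ t, M l t • v t) * (S + 1) +
      d * ∑ t, ∑ t', (M l t * M l t') * G t t') := by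
    refine Finset.sum_lt_sum_of_nonempty hL fun l hl => ?_
    have hd' : (0 : ℝ) < d := by exact_mod_cast hd
    have h5 := hG l
    have h6 : 0 ≤ qf (QM v) (∑ t, M l t • v t) := qf_nonneg (QM_posDef v) _
    by_cases h7 : qf (QM v) (∑ t, M l t • v t) ≤ 2 * d
    · have h8 := hcon l hl h7
      have h9 : 0 ≤ qf (QM v) (∑ t, M l t • v t) * (S + 1) := by positivity
      have h10 : d * (2 * (S + 1)) < d * ∑ t, ∑ t', (M l t * M l t') * G t t' :=
        mul_lt_mul_of_pos_left h8 hd'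
      linarith
    · have h8 : 2 * (d : ℝ) * (S + 1) < qf (QM v) (∑ t, M l t • v t) * (S + 1) :=
        mul_lt_mul_of_pos_right (not_le.1 h7) (by linarith)
      have h9 : 0 ≤ d * ∑ t, ∑ t', (M l t * M l t') * G t t' := by positivity
      linarith
  rw [Finset.sum_const, nsmul_eq_mul, Finset.sum_add_distrib, ← Finset.sum_mul, ← Finset.mul_sum,
    h1, h3] at h4
  have h5 := sum_qf_le v
  have h6 : (0 : ℝ) < L.card := by exact_mod_cast hL.card_pos
  have h7 : (L.card : ℝ) * (∑ t, qf (QM v) (v t)) * (S + 1) ≤ L.card * d * (S + 1) :=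
    mul_le_mul_of_nonneg_right (mul_le_mul_of_nonneg_left h5 h6.le) (by linarith)
  have h8 : 0 ≤ (L.card : ℝ) * d := by positivity
  nlinarith

end labels

/-! ### The algorithm -/

/-- The signed quadratic form of the Gram matrix `G`. -/
def kv (m : ℕ) (G : List (List ℤ)) (s : List ℕ) (l : ℕ) : ℤ :=
  ((List.range m).map fun t => ((List.range m).map fun t' =>
    (sgn (par l t) * sgn (par l t')) *
      ((s.getD t 0 : ℤ) * (s.getD t' 0 : ℤ) * (G.getD t []).getD t' 0)).sum).sum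

/-- The trace. -/
def kd (m : ℕ) (G : List (List ℤ)) (s : List ℕ) : ℤ :=
  ((List.range m).map fun t =>
    ((s.getD t 0 : ℤ) * (s.getD t 0 : ℤ) * (G.getD t []).getD t 0)).sum

/-- Is the signed sum number `l` short in both parts? -/
def shortK (d m : ℕ) (P : List (List ℤ)) (s : List ℕ) (G : List (List ℤ)) (l : ℕ) : Bool :=
  decide (qdet d (gv d m P s l :: rws m P s) ≤ (2 * d + 1) * qdet d (rws m P s)) &&
    decide (kv m G s l ≤ 2 * (kd m G s + 1))

/-- The first label that is short in both parts. -/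
def selK (d m : ℕ) (P : List (List ℤ)) (s : List ℕ) (G : List (List ℤ)) (N : ℕ) : ℕ :=
  ((List.range N).filter (shortK d m P s G)).headD 0

/-- The excluded label. -/
def exclK (F G : List (List ℤ)) : ℕ :=
  selK (dimF F) F.length (PF F) (runF F) G (2 ^ F.length.size)

theorem bound2k {n m d : ℕ} (hn : 2 ≤ n) (hm : m ≤ n) (hd : d ≤ n) :
    d * (d.factorial * (2 ^ n) ^ d) * m ^ d * m < 2 ^ (4 * n ^ 3) := by
  have h1 : d * (d.factorial * (2 ^ n) ^ d) * m ^ d * m ≤
      2 ^ n * 2 ^ (2 * n ^ 2) * 2 ^ (n ^ 2) * 2 ^ n := by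
    refine Nat.mul_le_mul (Nat.mul_le_mul (Nat.mul_le_mul (hd.trans Nat.lt_two_pow_self.le)
      (HD_le hd)) (pow_le2 hm hd)) (hm.trans Nat.lt_two_pow_self.le)
  refine lt_of_le_of_lt h1 ?_
  rw [← pow_add, ← pow_add, ← pow_add]
  refine Nat.pow_lt_pow_right (by norm_num) ?_
  have h2 : n * n ^ 2 = n ^ 3 := by ring
  have h3 : 2 * n ^ 2 ≤ n * n ^ 2 := Nat.mul_le_mul_right _ hn
  have h4 : n < n ^ 2 := by nlinarith
  omega

theorem list_range_sum {m : ℕ} (f : ℕ → ℤ) : ((List.range m).map f).sum = ∑ t : Fin m, f t := by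
  rw [← Finset.sum_range]
  induction m with
  | zero => simp
  | succ m ih => rw [List.range_succ, List.map_append, List.sum_append, ih, Finset.sum_range_succ]; simp

theorem kv_cast {m : ℕ} (G : List (List ℤ)) (e : ℕ → ℕ) (l : ℕ) : ((kv m G (st m e) l : ℤ) : ℝ) =
    ∑ t : Fin m, ∑ t' : Fin m, (((sgn (par l t) : ℤ) : ℝ) * ((sgn (par l t') : ℤ) : ℝ)) *
      ((2 : ℝ) ^ e t * (2 : ℝ) ^ e t' * (((G.getD t []).getD t' 0 : ℤ) : ℝ)) := by
  unfold kv
  rw [list_range_sum, Int.cast_sum]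
  refine Finset.sum_congr rfl fun t _ => ?_
  rw [list_range_sum, Int.cast_sum]
  refine Finset.sum_congr rfl fun t' _ => ?_
  rw [st_getD e t.isLt, st_getD e t'.isLt]
  push_cast
  ring

theorem kd_cast {m : ℕ} (G : List (List ℤ)) (e : ℕ → ℕ) : ((kd m G (st m e) : ℤ) : ℝ) =
    ∑ t : Fin m, ((2 : ℝ) ^ e t * (2 : ℝ) ^ e t * (((G.getD t []).getD t 0 : ℤ) : ℝ)) := by
  unfold kd
  rw [list_range_sum, Int.cast_sum]
  refine Finset.sum_congr rfl fun t _ => ?_
  rw [st_getD e t.isLt]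
  push_cast
  ring

/-- **The algorithm excludes a sign vector.** -/
theorem exclK_spec (F G : List (List ℤ)) (p : ℝ) (hp : 0 ≤ p)
    (hm : 128 * (dimF F : ℝ) ^ 2 * (3 + 8 * p) ^ 2 < F.length)
    {E : Type*} [NormedAddCommGroup E] [InnerProductSpace ℝ E] (φ : ℕ → E)
    (hG : ∀ t < F.length, ∀ t' < F.length,
      inner ℝ (φ t) (φ t') = (((G.getD t []).getD t' 0 : ℤ) : ℝ)) :
    exclK F G < 2 ^ F.length.size ∧ ∀ (u : E) (w : ℕ → ℝ) (θ : ℝ),
      (∀ t < F.length, ‖u‖ ^ 2 * ‖φ t‖ ^ 2 ≤ p) → ¬ ∀ t < F.length,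
      1 ≤ ((sgn (par (exclK F G) t) : ℤ) : ℝ) * (inner ℝ u (φ t) +
        ∑ j ∈ range (F.getD t []).length, w j * (((F.getD t []).getD j 0 : ℤ) : ℝ) - θ) := by
  set m := F.length with hmdef
  set d := dimF F with hd
  set n := nF F with hn
  set P := PF F with hP
  set β := bF F with hβ
  set T := tF F with hT
  have hd1 : 0 < d := by rw [hd, dimF]; omega
  have hd1' : (1 : ℝ) ≤ d := by exact_mod_cast hd1
  have hn2 : 2 ≤ n := by rw [hn, nF]; omega
  have hmn : m ≤ n := length_le_nF F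
  have hdn : d ≤ n := dimF_le_nF F
  have hdm : d ≤ m := by
    have h1 : (d : ℝ) ≤ m := by
      have h2 : (d : ℝ) ≤ (d : ℝ) ^ 2 := by nlinarith
      have h3 : (1 : ℝ) ≤ (3 + 8 * p) ^ 2 := one_le_pow₀ (by linarith)
      have h4 : (d : ℝ) ^ 2 * 1 ≤ (d : ℝ) ^ 2 * (3 + 8 * p) ^ 2 :=
        mul_le_mul_of_nonneg_left h3 (by positivity)
      nlinarith
    exact_mod_cast h1
  have hm0 : 0 < m := by omega
  set Fm : Fin m → Fin d → ℤ := fun t j => (1 :: F.getD t []).getD j 0 with hFm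
  have hFb : ∀ t j, |Fm t j| ≤ 2 ^ n := fun t j => entry_le F t j
  set a : Fin m → Fin d → ℤ := pert (2 ^ β) Fm with ha
  have hPa : ∀ (t : Fin m) (j : Fin d), (P.getD t []).getD j 0 = a t j := by
    intro t j
    have h1 : P.getD t [] = (List.range d).map fun j =>
        ((2 ^ bF F : ℕ) : ℤ) * (1 :: F.getD t []).getD j 0 + ((t : ℕ) : ℤ) ^ j := by
      rw [hP]
      unfold PF
      rw [List.getD_eq_getElem _ _ (by rw [List.length_map, List.length_range]; exact t.isLt)]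
      simp only [List.getElem_map, List.getElem_range]
      rfl
    rw [h1, List.getD_eq_getElem _ _ (by rw [List.length_map, List.length_range]; exact j.isLt)]
    simp only [List.getElem_map, List.getElem_range, ha, pert, hFm, hβ]
  have hβ' : β = 4 * n ^ 3 := rfl
  have hB1 : d.factorial * (m ^ d) ^ d < 2 ^ β := bound1 hn2 hmn hdn
  have hB2 : d * (d.factorial * (2 ^ n) ^ d) * m ^ d * m < 2 ^ β := bound2k hn2 hmn hdn
  have hab : ∀ t j, |a t j| ≤ 2 ^ (β + n + 1) := by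
    intro t j
    rw [ha, pert]
    have h1 : |((2 ^ β : ℕ) : ℤ) * Fm t j| ≤ 2 ^ β * 2 ^ n := by
      rw [abs_mul]
      push_cast
      rw [abs_of_pos (show (0 : ℤ) < 2 ^ β by positivity)]
      exact mul_le_mul_of_nonneg_left (hFb t j) (by positivity)
    have h2 : |((t : ℕ) : ℤ) ^ (j : ℕ)| ≤ 2 ^ β * 2 ^ n := by
      rw [abs_of_nonneg (by positivity)]
      have h3 : (t : ℕ) ^ (j : ℕ) ≤ 2 ^ (n ^ 2) :=
        pow_le2 (t.isLt.le.trans hmn) (j.isLt.le.trans hdn)
      have h4 : 2 ^ (n ^ 2) ≤ 2 ^ β * 2 ^ n := by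
        rw [← pow_add]
        refine Nat.pow_le_pow_right (by norm_num) ?_
        have : n ^ 2 ≤ n ^ 3 := Nat.pow_le_pow_right (by omega) (by norm_num)
        omega
      exact_mod_cast h3.trans h4
    have h3 : (2 : ℤ) ^ (β + n + 1) = 2 ^ β * 2 ^ n + 2 ^ β * 2 ^ n := by
      rw [pow_succ, pow_add]; ring
    rw [h3]
    exact (abs_add_le _ _).trans (add_le_add h1 h2)
  obtain ⟨e, he1, he2, he3⟩ := run_flat hPa hd1 (shiftP hm0) (shiftP_inj hm0 hdm)
    (fun i => one_le_det_sq (2 ^ β) hB1 Fm _ (shiftP_inj hm0 hdm i)) (T + β) T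
    (n ^ 2 + (3 * n + 3 + 2 * β) * n) (by omega)
    (det_init hmn hdn a hab) (bound4 hn2 hmn)
  have hrun : runF F = st m e := he1
  -- the quadratic form of the kernel
  have hkv : ∀ l, ((kv m G (st m e) l : ℤ) : ℝ) =
      ‖∑ t : Fin m, (((sgn (par l t) : ℤ) : ℝ) * (2 : ℝ) ^ e t) • φ t‖ ^ 2 := by
    intro l
    rw [kv_cast, ← real_inner_self_eq_norm_sq, sum_inner]
    refine Finset.sum_congr rfl fun t _ => ?_
    rw [inner_sum]
    refine Finset.sum_congr rfl fun t' _ => ?_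
    rw [real_inner_smul_left, real_inner_smul_right, hG t t.isLt t' t'.isLt]
    ring
  have hkd : ((kd m G (st m e) : ℤ) : ℝ) = ∑ t : Fin m, ((2 : ℝ) ^ e t) ^ 2 * ‖φ t‖ ^ 2 := by
    rw [kd_cast]
    refine Finset.sum_congr rfl fun t _ => ?_
    rw [← hG t t.isLt t t.isLt, real_inner_self_eq_norm_sq]
    ring
  -- selection
  set K := m.size with hK
  have hmK : m < 2 ^ K := Nat.lt_size_self m
  have hkdG : (∑ t : Fin m, ((2 : ℝ) ^ e t * (2 : ℝ) ^ e t * (((G.getD t []).getD t 0 : ℤ) : ℝ))) =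
      ((kd m G (st m e) : ℤ) : ℝ) := (kd_cast G e).symm
  have hlab := exists_label_k (ι := Fin m) (range (2 ^ K))
    (fun l t => ((sgn (par l t) : ℤ) : ℝ)) ⟨0, by simp⟩ hd1 (by
      intro t t' htt
      have h1 := par_orth K t t' (t.isLt.trans hmK) (t'.isLt.trans hmK)
        (fun h => htt (Fin.ext h))
      exact_mod_cast h1) (by
      intro t
      have h1 := par_norm K t
      rw [card_range]
      exact_mod_cast h1) (V a e)
    (fun t t' => (2 : ℝ) ^ e t * (2 : ℝ) ^ e t' * (((G.getD t []).getD t' 0 : ℤ) : ℝ)) (by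
      intro l
      have h1 := kv_cast (m := m) G e l
      rw [← h1, hkv]
      positivity) (by
      rw [hkdG, hkd]
      positivity)
  have hg : ∀ l, (fun j : Fin d => (((gv d m P (st m e) l).getD j 0 : ℤ) : ℝ)) =
      ∑ t : Fin m, ((sgn (par l t) : ℤ) : ℝ) • V a e t := by
    intro l
    funext j
    unfold gv
    rw [List.getD_eq_getElem _ _ (by simp)]
    simp only [List.getElem_map, List.getElem_range]
    rw [Finset.sum_apply, Int.cast_list_sum, List.map_map, ← List.sum_ofFn]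
    congr 1
    refine List.ext_getElem (by simp) fun t h1 h2 => ?_
    simp only [List.getElem_map, List.getElem_range, List.getElem_ofFn, Function.comp_apply,
      Pi.smul_apply, smul_eq_mul]
    have h3 : t < m := by simpa using h2
    have h4 := congrFun (row_eq hPa e ⟨t, h3⟩) j
    rw [← h4]
    push_cast
    rfl
  have hshort : ∀ l, shortK d m P (st m e) G l = true ↔
      qf (QM (V a e)) (∑ t : Fin m, ((sgn (par l t) : ℤ) : ℝ) • V a e t) ≤ 2 * d ∧
      ((kv m G (st m e) l : ℤ) : ℝ) ≤ 2 * (((kd m G (st m e) : ℤ) : ℝ) + 1) := by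
    intro l
    unfold shortK
    rw [Bool.and_eq_true, decide_eq_true_iff, decide_eq_true_iff, ← Nat.cast_le (α := ℝ),
      ← Int.cast_le (R := ℝ)]
    refine and_congr ?_ (by push_cast; rfl)
    push_cast
    rw [qdet_rws_cons hPa, qdet_rws hPa, hg]
    have hD := (QM_posDef (V a e)).det_pos
    set D := (QM (V a e)).det
    set q := qf (QM (V a e)) (∑ t : Fin m, ((sgn (par l t) : ℤ) : ℝ) • V a e t)
    constructor
    · intro h
      have h2 : D * (1 + q) ≤ D * (2 * d + 1) := by linarith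
      have h3 := le_of_mul_le_mul_left h2 hD
      linarith
    · intro h
      have h2 : D * (1 + q) ≤ D * (2 * d + 1) := mul_le_mul_of_nonneg_left (by linarith) hD.le
      linarith
  obtain ⟨l0, hl0, hl0', hl0''⟩ := hlab
  rw [hkdG] at hl0''
  have hmem : l0 ∈ (List.range (2 ^ K)).filter (shortK d m P (st m e) G) :=
    List.mem_filter.2 ⟨List.mem_range.2 (Finset.mem_range.1 hl0), (hshort l0).2
      ⟨hl0', by rw [kv_cast]; exact hl0''⟩⟩
  obtain ⟨l, L, hlL⟩ := List.exists_cons_of_ne_nil (List.ne_nil_of_mem hmem)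
  have hsel : exclK F G = l := by
    change selK d m P (runF F) G (2 ^ K) = l
    rw [hrun, selK, hlL]
    rfl
  have hl : l ∈ (List.range (2 ^ K)).filter (shortK d m P (st m e) G) := by rw [hlL]; simp
  obtain ⟨hl1, hl2⟩ := List.mem_filter.1 hl
  rw [hsel]
  refine ⟨List.mem_range.1 hl1, fun u w θ hu hw => ?_⟩
  obtain ⟨hq, hq2⟩ := (hshort l).1 hl2
  have hs1 : ∀ t : Fin m, (1 : ℝ) ≤ ((2 : ℝ) ^ e t) ^ 2 := fun t =>
    one_le_pow₀ (one_le_pow₀ (by norm_num))
  have hS0 : (1 : ℝ) ≤ ∑ t : Fin m, ((2 : ℝ) ^ e t) ^ 2 := by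
    have h1 : ∑ _t : Fin m, (1 : ℝ) ≤ ∑ t : Fin m, ((2 : ℝ) ^ e t) ^ 2 :=
      Finset.sum_le_sum fun t _ => hs1 t
    rw [Finset.sum_const, Finset.card_univ, Fintype.card_fin, nsmul_eq_mul, mul_one] at h1
    have : (1 : ℝ) ≤ m := by exact_mod_cast hm0
    linarith
  refine exclude_main_k (2 ^ β) (2 ^ n) Nat.one_le_two_pow hd1 Fm (fun t j => by
      exact_mod_cast hFb t j) (fun t => by simp [hFm]) p hp hB2 hm (fun t => e t) he3
    (fun t => sgn (par l t)) (fun t => sgn_pm _) hq (fun t => inner ℝ u (φ t)) ?_ ?_ ?_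
  · intro t
    have h1 := abs_real_inner_le_norm u (φ t)
    have h2 : (inner ℝ u (φ t)) ^ 2 ≤ (‖u‖ * ‖φ t‖) ^ 2 := by
      rw [← sq_abs]
      exact pow_le_pow_left₀ (abs_nonneg _) h1 2
    rw [mul_pow] at h2
    exact h2.trans (hu t t.isLt)
  · have h1 : ∑ t : Fin m, ((sgn (par l t) : ℤ) : ℝ) * ((2 : ℝ) ^ e t * inner ℝ u (φ t)) =
        inner ℝ u (∑ t : Fin m, (((sgn (par l t) : ℤ) : ℝ) * (2 : ℝ) ^ e t) • φ t) := by
      rw [inner_sum]
      refine Finset.sum_congr rfl fun t _ => ?_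
      rw [real_inner_smul_right]
      ring
    rw [h1]
    set ψ : E := ∑ t : Fin m, (((sgn (par l t) : ℤ) : ℝ) * (2 : ℝ) ^ e t) • φ t with hψ
    have h2 : (inner ℝ u ψ) ^ 2 ≤ ‖u‖ ^ 2 * ‖ψ‖ ^ 2 := by
      rw [← sq_abs, ← mul_pow]
      exact pow_le_pow_left₀ (abs_nonneg _) (abs_real_inner_le_norm u ψ) 2
    have h3 : ‖ψ‖ ^ 2 ≤ 2 * (((kd m G (st m e) : ℤ) : ℝ) + 1) := by rw [hψ, ← hkv]; exact hq2
    have h4 : ‖u‖ ^ 2 * ((kd m G (st m e) : ℤ) : ℝ) ≤ p * ∑ t : Fin m, ((2 : ℝ) ^ e t) ^ 2 := by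
      rw [hkd, Finset.mul_sum, Finset.mul_sum]
      refine Finset.sum_le_sum fun t _ => ?_
      have h5 := mul_le_mul_of_nonneg_left (hu t t.isLt) (sq_nonneg ((2 : ℝ) ^ e t))
      linarith
    by_cases h0 : ∀ t : Fin m, φ t = 0
    · have h5 : ψ = 0 := by
        rw [hψ]
        exact Finset.sum_eq_zero fun t _ => by rw [h0 t, smul_zero]
      rw [h5, inner_zero_right, zero_pow two_ne_zero]
      positivity
    · push Not at h0
      obtain ⟨t, ht⟩ := h0
      have h5 : (1 : ℝ) ≤ ‖φ t‖ ^ 2 := by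
        have h6 : 0 < ‖φ t‖ ^ 2 := by
          have := norm_pos_iff.2 ht
          positivity
        have h7 : ‖φ t‖ ^ 2 = (((G.getD t []).getD t 0 : ℤ) : ℝ) := by
          rw [← hG t t.isLt t t.isLt, real_inner_self_eq_norm_sq]
        rw [h7] at h6 ⊢
        exact_mod_cast h6
      have h6 : ‖u‖ ^ 2 ≤ p := by
        have h7 := hu t t.isLt
        have h8 : ‖u‖ ^ 2 * 1 ≤ ‖u‖ ^ 2 * ‖φ t‖ ^ 2 :=
          mul_le_mul_of_nonneg_left h5 (sq_nonneg _)
        linarith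
      have h7 : ‖u‖ ^ 2 * ‖ψ‖ ^ 2 ≤ ‖u‖ ^ 2 * (2 * (((kd m G (st m e) : ℤ) : ℝ) + 1)) :=
        mul_le_mul_of_nonneg_left h3 (sq_nonneg _)
      have h8 : p * 1 ≤ p * ∑ t : Fin m, ((2 : ℝ) ^ e t) ^ 2 := mul_le_mul_of_nonneg_left hS0 hp
      linarith
  · -- the weights
    refine ⟨fun j => if (j : ℕ) = 0 then -θ else w (j - 1), fun t => ?_⟩
    have hsum : ∑ j : Fin d, (if (j : ℕ) = 0 then -θ else w (j - 1)) * (Fm t j : ℝ) =
        ∑ j ∈ range (F.getD t []).length, w j * (((F.getD t []).getD j 0 : ℤ) : ℝ) - θ := by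
      obtain ⟨d', hd'⟩ : ∃ d', d = d' + 1 := ⟨d - 1, by omega⟩
      have h1 : ∑ j : Fin d, (if (j : ℕ) = 0 then -θ else w (j - 1)) * (Fm t j : ℝ) =
          ∑ j ∈ range d, (if j = 0 then -θ else w (j - 1)) *
            (((1 :: F.getD t []).getD j 0 : ℤ) : ℝ) := by
        rw [Finset.sum_range]
      rw [h1, hd', Finset.sum_range_succ']
      simp only [Nat.add_eq_zero_iff, one_ne_zero, and_false, if_false, Nat.add_sub_cancel,
        List.getD_cons_succ, if_true, List.getD_cons_zero, Int.cast_one, mul_one]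
      have h2 : ∑ j ∈ range d', w j * (((F.getD t []).getD j 0 : ℤ) : ℝ) =
          ∑ j ∈ range (F.getD t []).length, w j * (((F.getD t []).getD j 0 : ℤ) : ℝ) := by
        symm
        refine Finset.sum_subset ?_ ?_
        · intro j hj
          have h3 := length_row_le F t
          rw [Finset.mem_range] at hj ⊢
          omega
        · intro j _ hj
          rw [Finset.mem_range, not_lt] at hj
          rw [List.getD_eq_default _ _ hj]
          simp
      rw [h2]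
      ring
    rw [hsum]
    have h3 := hw t t.isLt
    rw [add_sub_assoc] at h3
    exact h3

end Pool.Agent.TH743.KG
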