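import Pool.Agent.TH684.LT.PolyT
import Pool.Agent.TH743.KG.Alg

/-!
# Exclusion of a sign vector for threshold gates with a kernel part: polynomial time
-/

set_option autoImplicit false

namespace Pool.Agent.TH743.KG

open Pool.Agent.NPC
open Pool.Agent.H579R2.Spt (par sgn par_poly bits_poly)
open Pool.Agent.TH684.LT

variable {α β : Type} [TEnc α] [TEnc β]

theorem kv_poly {m l : α → ℕ} {G : α → List (List ℤ)} {s : α → List ℕ} (hm : UPoly m)
    (hG : Poly G) (hs : Poly s) (hl : Poly l) : Poly (fun a => kv (m a) (G a) (s a) (l a)) := by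
  unfold kv
  have e1 : Poly (fun q : α × ℕ => q.1) := NPC.Poly.fst NPC.Poly.id
  refine NPC.Poly.isum (NPC.Poly.map (l := fun a => List.range (m a)) (F := fun a t =>
    ((List.range (m a)).map fun t' => (sgn (par (l a) t) * sgn (par (l a) t')) *
      (((s a).getD t 0 : ℤ) * ((s a).getD t' 0 : ℤ) * ((G a).getD t []).getD t' 0)).sum)
    hm.range (NPC.Poly.isum ?_))
  refine NPC.Poly.map (l := fun q : α × ℕ => List.range (m q.1)) (F := fun q t' =>
    (sgn (par (l q.1) q.2) * sgn (par (l q.1) t')) *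
      (((s q.1).getD q.2 0 : ℤ) * ((s q.1).getD t' 0 : ℤ) * ((G q.1).getD q.2 []).getD t' 0))
    (hm.comp e1).range ?_
  have f1 : Poly (fun q : (α × ℕ) × ℕ => q.1.1) := NPC.Poly.fst (NPC.Poly.fst NPC.Poly.id)
  have f2 : Poly (fun q : (α × ℕ) × ℕ => q.1.2) := NPC.Poly.snd (NPC.Poly.fst NPC.Poly.id)
  have f3 : Poly (fun q : (α × ℕ) × ℕ => q.2) := NPC.Poly.snd NPC.Poly.id
  exact NPC.Poly.imul (NPC.Poly.imul (sgn_poly (par_poly (hl.comp f1) f2))
      (sgn_poly (par_poly (hl.comp f1) f3)))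
    (NPC.Poly.imul (NPC.Poly.imul
      (NPC.Poly.natCast (NPC.Poly.getD (hs.comp f1) f2 (NPC.Poly.const 0)))
      (NPC.Poly.natCast (NPC.Poly.getD (hs.comp f1) f3 (NPC.Poly.const 0))))
      (NPC.Poly.getD (NPC.Poly.getD (hG.comp f1) f2 (NPC.Poly.const [])) f3 (NPC.Poly.const 0)))

theorem kd_poly {m : α → ℕ} {G : α → List (List ℤ)} {s : α → List ℕ} (hm : UPoly m)
    (hG : Poly G) (hs : Poly s) : Poly (fun a => kd (m a) (G a) (s a)) := by
  unfold kd
  have e1 : Poly (fun q : α × ℕ => q.1) := NPC.Poly.fst NPC.Poly.id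
  have e2 : Poly (fun q : α × ℕ => q.2) := NPC.Poly.snd NPC.Poly.id
  refine NPC.Poly.isum (NPC.Poly.map (l := fun a => List.range (m a)) (F := fun a t =>
    (((s a).getD t 0 : ℤ) * ((s a).getD t 0 : ℤ) * ((G a).getD t []).getD t 0)) hm.range ?_)
  exact NPC.Poly.imul (NPC.Poly.imul
      (NPC.Poly.natCast (NPC.Poly.getD (hs.comp e1) e2 (NPC.Poly.const 0)))
      (NPC.Poly.natCast (NPC.Poly.getD (hs.comp e1) e2 (NPC.Poly.const 0))))
      (NPC.Poly.getD (NPC.Poly.getD (hG.comp e1) e2 (NPC.Poly.const [])) e2 (NPC.Poly.const 0))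

theorem shortK_poly {d m l : α → ℕ} {P G : α → List (List ℤ)} {s : α → List ℕ} (hd : UPoly d)
    (hm : UPoly m) (hP : Poly P) (hs : Poly s) (hG : Poly G) (hl : Poly l) :
    Poly (fun a => shortK (d a) (m a) (P a) (s a) (G a) (l a)) := by
  unfold shortK
  have hr := rws_poly hm hP hs
  refine NPC.Poly.and (NPC.Poly.decide_le (qdet_poly hd (NPC.Poly.cons (gv_poly hd hm hP hs hl) hr))
    (NPC.Poly.mul (NPC.Poly.add (NPC.Poly.mul (NPC.Poly.const 2) hd.toPoly) (NPC.Poly.const 1))
      (qdet_poly hd hr))) ?_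
  exact NPC.Poly.ile (kv_poly hm hG hs hl) (NPC.Poly.imul (NPC.Poly.const 2)
    (NPC.Poly.iadd (kd_poly hm hG hs) (NPC.Poly.const 1)))

theorem selK_poly {d m N : α → ℕ} {P G : α → List (List ℤ)} {s : α → List ℕ} (hd : UPoly d)
    (hm : UPoly m) (hP : Poly P) (hs : Poly s) (hG : Poly G) (hN : UPoly N) :
    Poly (fun a => selK (d a) (m a) (P a) (s a) (G a) (N a)) := by
  unfold selK
  have e1 : Poly (fun q : α × ℕ => q.1) := NPC.Poly.fst NPC.Poly.id
  exact headD_poly (NPC.Poly.filter (l := fun a => List.range (N a))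
    (p := fun a l => shortK (d a) (m a) (P a) (s a) (G a) l) hN.range
    (shortK_poly (hd.comp e1) (hm.comp e1) (hP.comp e1) (hs.comp e1) (hG.comp e1)
      (NPC.Poly.snd NPC.Poly.id))) (NPC.Poly.const 0)

/-- **The algorithm runs in polynomial time.** -/
theorem exclK_poly {F G : α → List (List ℤ)} (hF : Poly F) (hG : Poly G) :
    Poly (fun a => exclK (F a) (G a)) := by
  have hn := nF_upoly hF
  have hd : UPoly (fun a => dimF (F a)) := UPoly.of_le (dimF_poly hF) hn fun a => dimF_le_nF (F a)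
  have hb : UPoly (fun a => bF (F a)) := by
    unfold bF
    exact (UPoly.const 4).mul (pow_upoly hn 3)
  have hT : UPoly (fun a => tF (F a)) := by
    unfold tF
    exact (UPoly.const 16).mul (pow_upoly hn 5)
  have hm : UPoly (fun a => (F a).length) := UPoly.length hF
  have hP := PF_poly hF hd hb
  have hrun : Poly (fun a => runF (F a)) := by
    unfold runF
    exact iter_stp_poly hd hm (hT.add hb) hT hP
  have hsz : UPoly (fun a => (F a).length.size) := by
    have h1 := UPoly.length (NPC.Poly.natBits hm.toPoly)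
    refine Poly.congr h1 fun a => ?_
    beta_reduce
    rw [Nat.size_eq_bits_len]
  have hN : UPoly (fun a => 2 ^ (F a).length.size) := by
    refine UPoly.of_le (NPC.Poly.npow (NPC.Poly.const 2) hsz)
      (((UPoly.const 2).mul hm).add (UPoly.const 1)) fun a => ?_
    rcases Nat.eq_zero_or_pos (F a).length with h | h
    · rw [h]; simp
    · have h2 : 2 ^ ((F a).length.size - 1) ≤ (F a).length := by
        rw [← Nat.lt_size]
        have := Nat.size_pos.2 h
        omega
      have h3 : 2 ^ (F a).length.size = 2 * 2 ^ ((F a).length.size - 1) := by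
        rw [← pow_succ']
        congr 1
        have := Nat.size_pos.2 h
        omega
      omega
  unfold exclK
  exact selK_poly hd hm hP hrun hG hN

end Pool.Agent.TH743.KG
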