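import Pool.Agent.TH684.LT.Thm
import Pool.Agent.TH743.KG.PolyK

/-!
# Threshold gates with a kernel part: definitions, and exclusion
-/

set_option autoImplicit false

namespace Pool.Agent.TH743.KG

open Pool.Agent.NPC Pool.Agent.H579R2.Spt Pool.Agent.H251R5.PQ
open Pool.Agent.TH684.EX (Exc poly_of_polyTime p_eq_np_of_exc)
open Pool.Agent.TH684.LT (exists_pow_add_bound)

/-- The number `n` in unary. -/
def un (n : ℕ) : List Bool := List.replicate n true

/-- The set `A` is decided, with margin one, by a threshold gate with a kernel part. There are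
polynomial-time functions `f`, with integer vectors (lists of integers) as values, and `κ`, with
integer values, such that for every `n` there are a number `a` (advice), at most `n ^ b + b`, a real
inner product space `E` (of any dimension), vectors `φ x` of `E` whose inner products are the numbers
`κ (x, y, 1ⁿ, a)`, a vector `u` of `E`, real weights `w` and a real threshold `θ` such that for all
strings `x` of length at most `n`: the number `‖u‖ ^ 2 * ‖φ x‖ ^ 2` is at most `n ^ b + b`, and the
number `⟨u, φ x⟩ + ∑ j, w j * f (x, 1ⁿ, a) j - θ` is at least `1` if `x` is in `A`, and at most `-1`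
otherwise. The space, the vectors, the weights and the threshold are arbitrary, and may depend on `n`
in any way. -/
def KernelGate (A : Set (List Bool)) : Prop :=
  ∃ (f : List Bool → List ℤ) (κ : List Bool → ℤ) (b : ℕ),
    PolyTime (fun z => bits (f z)) ∧ PolyTime (fun z => bits (κ z)) ∧
    ∀ n : ℕ, ∃ a : ℕ, a ≤ n ^ b + b ∧
      ∃ (E : Type) (_ : NormedAddCommGroup E) (_ : InnerProductSpace ℝ E) (φ : List Bool → E)
        (u : E) (w : ℕ → ℝ) (θ : ℝ),
        (∀ x y : List Bool, x.length ≤ n → y.length ≤ n →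
          inner ℝ (φ x) (φ y) = (κ (bits (x, (y, (un n, a)))) : ℝ)) ∧
        ∀ x : List Bool, x.length ≤ n →
          ‖u‖ ^ 2 * ‖φ x‖ ^ 2 ≤ (n : ℝ) ^ b + b ∧
          (x ∈ A → 1 ≤ inner ℝ u (φ x) +
            ∑ j ∈ Finset.range (f (bits (x, (un n, a)))).length,
              w j * ((f (bits (x, (un n, a)))).getD j 0 : ℝ) - θ) ∧
          (x ∉ A → inner ℝ u (φ x) +
            ∑ j ∈ Finset.range (f (bits (x, (un n, a)))).length,
              w j * ((f (bits (x, (un n, a)))).getD j 0 : ℝ) - θ ≤ -1)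

theorem un_poly {α : Type} [TEnc α] {n : α → ℕ} (hn : UPoly n) : Poly (fun a => un (n a)) := by
  have h1 : Poly (fun a => (List.replicate (n a) ()).map fun _ => true) :=
    NPC.Poly.map (F := fun _ _ => true) hn (NPC.Poly.const true)
  exact h1.congr fun a => by simp [un]

/-- **A set decided by a threshold gate with a kernel part admits the exclusion of a vector.** -/
theorem exc_of_kernelGate {A : Set (List Bool)} (h : KernelGate A) :
    ∃ (b : ℕ) (X : List (List Bool) × ℕ → ℕ), Poly X ∧
      Exc A (fun q : ℕ × (ℕ × ℕ) => par q.2.1 q.2.2) b X := by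
  classical
  obtain ⟨f, κ, c, hf, hκ, hgate⟩ := h
  have hfp : Poly f := poly_of_polyTime hf
  have hκp : Poly κ := poly_of_polyTime hκ
  -- the advice number codes `n` and `a`
  set nn : List (List Bool) × ℕ → ℕ := fun q => min (q.2 % q.1.length) q.1.length with hnn
  set aa : List (List Bool) × ℕ → ℕ := fun q => q.2 / q.1.length with haa
  have hlenp : UPoly (fun q : List (List Bool) × ℕ => q.1.length) :=
    UPoly.length (NPC.Poly.fst NPC.Poly.id)
  have hnnp : UPoly nn :=
    UPoly.of_le (NPC.Poly.min (NPC.Poly.mod (NPC.Poly.snd NPC.Poly.id) hlenp.toPoly)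
      hlenp.toPoly) hlenp fun q => min_le_right _ _
  have haap : Poly aa := NPC.Poly.div (NPC.Poly.snd NPC.Poly.id) hlenp.toPoly
  set FF : List (List Bool) × ℕ → List (List ℤ) :=
    fun q => q.1.map fun y => f (bits (y, (un (nn q), aa q))) with hFF
  set GG : List (List Bool) × ℕ → List (List ℤ) :=
    fun q => q.1.map fun y => q.1.map fun y' => κ (bits (y, (y', (un (nn q), aa q)))) with hGG
  have e0 : Poly (fun q : (List (List Bool) × ℕ) × List Bool => q.1) := NPC.Poly.fst NPC.Poly.id
  have e2 : Poly (fun q : (List (List Bool) × ℕ) × List Bool => q.2) := NPC.Poly.snd NPC.Poly.id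
  have e3 : Poly (fun q : (List (List Bool) × ℕ) × List Bool => q.1.1) :=
    NPC.Poly.fst (NPC.Poly.fst NPC.Poly.id)
  have hadv : Poly (fun q : List (List Bool) × ℕ => (un (nn q), aa q)) :=
    NPC.Poly.pair (un_poly hnnp) haap
  have hFFp : Poly FF :=
    NPC.Poly.map (l := fun q : List (List Bool) × ℕ => q.1)
      (F := fun q y => f (bits (y, (un (nn q), aa q)))) (NPC.Poly.fst NPC.Poly.id)
      (hfp.comp (bits_poly.comp (NPC.Poly.pair e2 (hadv.comp e0))))
  have hGGp : Poly GG := by
    refine NPC.Poly.map (l := fun q : List (List Bool) × ℕ => q.1)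
      (F := fun q y => q.1.map fun y' => κ (bits (y, (y', (un (nn q), aa q)))))
      (NPC.Poly.fst NPC.Poly.id) ?_
    refine NPC.Poly.map (l := fun q : (List (List Bool) × ℕ) × List Bool => q.1.1)
      (F := fun q y' => κ (bits (q.2, (y', (un (nn q.1), aa q.1))))) e3 ?_
    have f1 : Poly (fun q : ((List (List Bool) × ℕ) × List Bool) × List Bool => q.1) :=
      NPC.Poly.fst NPC.Poly.id
    have f2 : Poly (fun q : ((List (List Bool) × ℕ) × List Bool) × List Bool => q.2) :=
      NPC.Poly.snd NPC.Poly.id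
    exact hκp.comp (bits_poly.comp (NPC.Poly.pair (e2.comp f1)
      (NPC.Poly.pair f2 (hadv.comp (e0.comp f1)))))
  obtain ⟨p, hp⟩ := (hfp.comp (bits_poly (α := List Bool × (List Bool × ℕ)))).sz_le
  -- the bound on the lengths of the vectors
  set R : Polynomial ℕ := Polynomial.C 8 * Polynomial.X + Polynomial.C 4 *
    (Polynomial.X ^ c + Polynomial.C c) + 10 with hR
  set D : Polynomial ℕ := p.comp R with hD
  have hlen : ∀ n a : ℕ, a ≤ n ^ c + c → ∀ y : List Bool, y.length ≤ n →
      (f (bits (y, (un n, a)))).length ≤ D.eval n := by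
    intro n a ha y hy
    have h1 := hp (y, (un n, a))
    have h2 := length_lt_sz (f (bits (y, (un n, a))))
    have h3 : sz (y, (un n, a)) ≤ R.eval n := by
      rw [sz_pair, sz_pair, hR]
      have h4 := sz_listBool_le y
      have h4' := sz_listBool_le (un n)
      have h4'' : (un n).length = n := by simp [un]
      have h5 := sz_nat_le a
      have h6 := NPC.Poly.size_le_self a
      simp only [Polynomial.eval_add, Polynomial.eval_mul, Polynomial.eval_C, Polynomial.eval_X,
        Polynomial.eval_pow, Polynomial.eval_ofNat]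
      omega
    have h4 := eval_mono p h3
    rw [hD, Polynomial.eval_comp]
    omega
  set Mp : Polynomial ℕ := Polynomial.C 129 * (D + 1) ^ 2 *
    (Polynomial.C 3 + Polynomial.C 8 * (Polynomial.X ^ c + Polynomial.C c)) ^ 2 +
    Polynomial.X with hMp
  obtain ⟨b0, hb0⟩ := exists_pow_add_bound (Polynomial.C 2 * Mp + (Polynomial.X ^ c +
    Polynomial.C c) * Mp + Polynomial.X)
  refine ⟨b0, fun q => exclK (FF q) (GG q), exclK_poly hFFp hGGp, fun n => ?_⟩
  obtain ⟨a, ha, E, _, _, φ, u, w, θ, hinner, hw⟩ := hgate n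
  have hb := hb0 n
  simp only [Polynomial.eval_add, Polynomial.eval_mul, Polynomial.eval_C, Polynomial.eval_X,
    Polynomial.eval_pow] at hb
  have hMpe : Mp.eval n = 129 * (D.eval n + 1) ^ 2 * (3 + 8 * (n ^ c + c)) ^ 2 + n := by
    rw [hMp]
    simp
  have hMpn : n < Mp.eval n := by
    rw [hMpe]
    have : 0 < 129 * (D.eval n + 1) ^ 2 * (3 + 8 * (n ^ c + c)) ^ 2 := by positivity
    omega
  have hMp0 : 0 < Mp.eval n := by omega
  have hadvle : a * Mp.eval n + n ≤ n ^ b0 + b0 := by
    have h1 : a * Mp.eval n ≤ (n ^ c + c) * Mp.eval n := Nat.mul_le_mul_right _ ha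
    omega
  refine ⟨Mp.eval n, a * Mp.eval n + n, by omega, hadvle, fun qs hqs hqlen => ?_⟩
  set a' : ℕ := a * Mp.eval n + n with ha'
  have hnn' : nn (qs, a') = n := by
    rw [hnn]
    beta_reduce
    rw [hqs, ha', Nat.add_comm, Nat.add_mul_mod_self_right, Nat.mod_eq_of_lt hMpn]
    exact min_eq_left hMpn.le
  have haa' : aa (qs, a') = a := by
    rw [haa]
    beta_reduce
    rw [hqs, ha', Nat.add_comm, Nat.add_mul_div_right _ _ hMp0, Nat.div_eq_of_lt hMpn, zero_add]
  have hFlen : (FF (qs, a')).length = Mp.eval n := by rw [hFF]; simpa using hqs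
  have hFget : ∀ t (ht : t < qs.length),
      (FF (qs, a')).getD t [] = f (bits (qs[t], (un n, a))) := by
    intro t ht
    rw [hFF, List.getD_eq_getElem _ _ (by simpa using ht)]
    simp only [List.getElem_map, hnn', haa']
  have hGget : ∀ t (ht : t < qs.length), ∀ t' (ht' : t' < qs.length),
      ((GG (qs, a')).getD t []).getD t' 0 = κ (bits (qs[t], (qs[t'], (un n, a)))) := by
    intro t ht t' ht'
    have h1 : (GG (qs, a')).getD t [] =
        qs.map fun y' => κ (bits (qs[t], (y', (un n, a)))) := by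
      rw [hGG, List.getD_eq_getElem (n := t) _ _ (by simpa using ht)]
      simp only [List.getElem_map, hnn', haa']
    rw [h1, List.getD_eq_getElem _ _ (by simpa using ht')]
    simp
  have hdim : TH684.LT.dimF (FF (qs, a')) ≤ D.eval n + 1 := by
    refine TH684.LT.dimF_le _ fun r hr => ?_
    obtain ⟨y, hy, rfl⟩ := List.mem_map.1 hr
    rw [hnn', haa']
    exact hlen n a ha y (hqlen y hy)
  set pr : ℝ := (n : ℝ) ^ c + c with hpr
  have hpr0 : 0 ≤ pr := by positivity
  have hbig : 128 * (TH684.LT.dimF (FF (qs, a')) : ℝ) ^ 2 * (3 + 8 * pr) ^ 2 <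
      (FF (qs, a')).length := by
    rw [hFlen, hMpe]
    push_cast
    have h1 : (TH684.LT.dimF (FF (qs, a')) : ℝ) ^ 2 ≤ ((D.eval n : ℕ) + 1 : ℝ) ^ 2 := by
      refine pow_le_pow_left₀ (by positivity) ?_ 2
      exact_mod_cast hdim
    have h2 : (0 : ℝ) < ((D.eval n : ℕ) + 1 : ℝ) ^ 2 * (3 + 8 * pr) ^ 2 := by positivity
    have h3 : (TH684.LT.dimF (FF (qs, a')) : ℝ) ^ 2 * (3 + 8 * pr) ^ 2 ≤
        ((D.eval n : ℕ) + 1 : ℝ) ^ 2 * (3 + 8 * pr) ^ 2 :=
      mul_le_mul_of_nonneg_right h1 (by positivity)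
    have h4 : (0 : ℝ) ≤ n := Nat.cast_nonneg n
    rw [hpr] at h2 h3 ⊢
    linarith
  obtain ⟨h1, h2⟩ := exclK_spec (FF (qs, a')) (GG (qs, a')) pr hpr0 hbig
    (fun t => φ (qs.getD t [])) (by
      intro t ht t' ht'
      rw [hFlen, ← hqs] at ht ht'
      rw [hGget t ht t' ht', List.getD_eq_getElem _ _ ht, List.getD_eq_getElem _ _ ht']
      exact hinner _ _ (hqlen _ (List.getElem_mem ht)) (hqlen _ (List.getElem_mem ht')))
  refine ⟨?_, fun hcon => h2 u w θ (fun t ht => ?_) fun t ht => ?_⟩
  · have h3 : 2 ^ (FF (qs, a')).length.size ≤ 2 * Mp.eval n := by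
      rw [hFlen]
      have h5 := Nat.size_pos.2 hMp0
      have h6 : 2 ^ ((Mp.eval n).size - 1) ≤ Mp.eval n := by
        rw [← Nat.lt_size]
        omega
      have h7 : 2 ^ (Mp.eval n).size = 2 * 2 ^ ((Mp.eval n).size - 1) := by
        rw [← pow_succ']
        congr 1
        omega
      omega
    change exclK (FF (qs, a')) (GG (qs, a')) ≤ _
    omega
  · rw [hFlen, ← hqs] at ht
    rw [List.getD_eq_getElem _ _ ht]
    exact (hw _ (hqlen _ (List.getElem_mem ht))).1
  · rw [hFlen] at ht
    have ht' : t < qs.length := by rw [hqs]; exact ht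
    rw [hFget t ht', List.getD_eq_getElem _ _ ht']
    obtain ⟨_, h4, h5⟩ := hw qs[t] (hqlen _ (List.getElem_mem ht'))
    have h6 : (answers A qs)[t]? = ((List.range (Mp.eval n)).map fun i =>
        par (exclK (FF (qs, a')) (GG (qs, a'))) i)[t]? := by rw [hcon]
    unfold answers at h6
    rw [List.getElem?_map, List.getElem?_map, List.getElem?_eq_getElem ht',
      List.getElem?_range ht] at h6
    simp only [Option.map_some, Option.some.injEq] at h6
    rw [← h6]
    by_cases hA : qs[t] ∈ A
    · have h7 : ((sgn (decide (qs[t] ∈ A)) : ℤ) : ℝ) = 1 := by simp [sgn, hA]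
      rw [h7, one_mul]
      exact h4 hA
    · have h7 : ((sgn (decide (qs[t] ∈ A)) : ℤ) : ℝ) = -1 := by simp [sgn, hA]
      have h8 := h5 hA
      rw [h7]
      linarith

/-- If some `NP`-hard set is decided by a threshold gate with a kernel part then `P = NP`. -/
theorem p_eq_np_of_kernelGate {A : Set (List Bool)} (hA : NPHard A) (h : KernelGate A) :
    ∀ L : Set (List Bool), InNP L → InP L := by
  obtain ⟨b, X, hX, hex⟩ := exc_of_kernelGate h
  exact p_eq_np_of_exc hA (par_poly (NPC.Poly.fst (NPC.Poly.snd NPC.Poly.id))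
    (NPC.Poly.snd (NPC.Poly.snd NPC.Poly.id))) hX hex

end Pool.Agent.TH743.KG
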