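import Pool.Agent.TH743.KG.Gate

/-!
# Sequences of functions with a polynomial-time kernel
-/

set_option autoImplicit false

namespace Pool.Agent.TH743.KG

open Pool.Agent.NPC Pool.Agent.H579R2.Spt Pool.Agent.H251R5.PQ
open Pool.Agent.TH684.LT (exists_pow_add_bound)
open scoped TensorProduct

/-- The functions `F n` on the strings of length at most `n` are linear functionals of polynomial
norm on vectors of polynomial norm whose inner products are computed in polynomial time (with a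
common denominator), with the advice `a`. -/
def KRep (a : ℕ → ℕ) (F : ℕ → List Bool → ℝ) : Prop :=
  ∃ (κ : List Bool × (List Bool × (List Bool × ℕ)) → ℤ) (N : List Bool × ℕ → ℤ) (b : ℕ),
    Poly κ ∧ Poly N ∧ ∀ n : ℕ, 0 < N (un n, a n) ∧
      ∃ (E : Type) (_ : NormedAddCommGroup E) (_ : InnerProductSpace ℝ E) (φ : List Bool → E)
        (u : E), ‖u‖ ^ 2 ≤ ((n ^ b + b : ℕ) : ℝ) ∧
        (∀ x y : List Bool, x.length ≤ n → y.length ≤ n →
          inner ℝ (φ x) (φ y) * (N (un n, a n) : ℝ) = (κ (x, (y, (un n, a n))) : ℝ)) ∧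
        ∀ x : List Bool, x.length ≤ n → ‖φ x‖ ^ 2 ≤ ((n ^ b + b : ℕ) : ℝ) ∧ F n x = inner ℝ u (φ x)

theorem exists_bound_add (b c : ℕ) : ∃ e : ℕ, ∀ n : ℕ, (n ^ b + b) + (n ^ c + c) ≤ n ^ e + e := by
  obtain ⟨e, he⟩ := exists_pow_add_bound ((Polynomial.X ^ b + Polynomial.C b) +
    (Polynomial.X ^ c + Polynomial.C c))
  exact ⟨e, fun n => by simpa using he n⟩

theorem exists_bound_mul (b c : ℕ) : ∃ e : ℕ, ∀ n : ℕ, (n ^ b + b) * (n ^ c + c) ≤ n ^ e + e := by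
  obtain ⟨e, he⟩ := exists_pow_add_bound ((Polynomial.X ^ b + Polynomial.C b) *
    (Polynomial.X ^ c + Polynomial.C c))
  exact ⟨e, fun n => by simpa using he n⟩

variable {a : ℕ → ℕ} {F G : ℕ → List Bool → ℝ}

theorem KRep.congr (hF : KRep a F) (h : ∀ n x, x.length ≤ n → F n x = G n x) : KRep a G := by
  obtain ⟨κ, N, b, h1, h2, h3⟩ := hF
  refine ⟨κ, N, b, h1, h2, fun n => ?_⟩
  obtain ⟨h4, E, i1, i2, φ, u, h5, h6, h7⟩ := h3 n
  exact ⟨h4, E, i1, i2, φ, u, h5, h6, fun x hx => ⟨(h7 x hx).1, by rw [← h n x hx, (h7 x hx).2]⟩⟩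

theorem KRep.mul (hF : KRep a F) (hG : KRep a G) : KRep a (fun n x => F n x * G n x) := by
  obtain ⟨κ, N, b, h1, h2, h3⟩ := hF
  obtain ⟨κ', N', b', h1', h2', h3'⟩ := hG
  obtain ⟨e, he⟩ := exists_bound_mul b b'
  refine ⟨fun q => κ q * κ' q, fun q => N q * N' q, e, NPC.Poly.imul h1 h1',
    NPC.Poly.imul h2 h2', fun n => ?_⟩
  obtain ⟨h4, E, i1, i2, φ, u, h5, h6, h7⟩ := h3 n
  obtain ⟨h4', E', i1', i2', φ', u', h5', h6', h7'⟩ := h3' n
  have hb : ((n ^ b + b : ℕ) : ℝ) * ((n ^ b' + b' : ℕ) : ℝ) ≤ ((n ^ e + e : ℕ) : ℝ) := by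
    exact_mod_cast he n
  refine ⟨mul_pos h4 h4', E ⊗[ℝ] E', inferInstance, inferInstance, fun x => φ x ⊗ₜ[ℝ] φ' x,
    u ⊗ₜ[ℝ] u', ?_, fun x y hx hy => ?_, fun x hx => ⟨?_, ?_⟩⟩
  · rw [TensorProduct.norm_tmul, mul_pow]
    exact (mul_le_mul h5 h5' (sq_nonneg _) (by positivity)).trans hb
  · rw [TensorProduct.inner_tmul]
    push_cast
    rw [← h6 x y hx hy, ← h6' x y hx hy]
    ring
  · rw [TensorProduct.norm_tmul, mul_pow]
    exact (mul_le_mul (h7 x hx).1 (h7' x hx).1 (sq_nonneg _) (by positivity)).trans hb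
  · rw [TensorProduct.inner_tmul, ← (h7 x hx).2, ← (h7' x hx).2]

theorem KRep.add (hF : KRep a F) (hG : KRep a G) : KRep a (fun n x => F n x + G n x) := by
  obtain ⟨κ, N, b, h1, h2, h3⟩ := hF
  obtain ⟨κ', N', b', h1', h2', h3'⟩ := hG
  obtain ⟨e, he⟩ := exists_bound_add b b'
  have e1 : Poly (fun q : List Bool × (List Bool × (List Bool × ℕ)) => q.2.2) :=
    NPC.Poly.snd (NPC.Poly.snd NPC.Poly.id)
  refine ⟨fun q => κ q * N' q.2.2 + κ' q * N q.2.2, fun q => N q * N' q, e,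
    NPC.Poly.iadd (NPC.Poly.imul h1 (h2'.comp e1)) (NPC.Poly.imul h1' (h2.comp e1)),
    NPC.Poly.imul h2 h2', fun n => ?_⟩
  obtain ⟨h4, E, i1, i2, φ, u, h5, h6, h7⟩ := h3 n
  obtain ⟨h4', E', i1', i2', φ', u', h5', h6', h7'⟩ := h3' n
  have hb : ((n ^ b + b : ℕ) : ℝ) + ((n ^ b' + b' : ℕ) : ℝ) ≤ ((n ^ e + e : ℕ) : ℝ) := by
    exact_mod_cast he n
  refine ⟨mul_pos h4 h4', WithLp 2 (E × E'), inferInstance, inferInstance,
    fun x => WithLp.toLp 2 (φ x, φ' x), WithLp.toLp 2 (u, u'), ?_, fun x y hx hy => ?_,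
    fun x hx => ⟨?_, ?_⟩⟩
  · rw [WithLp.prod_norm_sq_eq_of_L2]
    exact (add_le_add h5 h5').trans hb
  · rw [WithLp.prod_inner_apply]
    push_cast
    rw [← h6 x y hx hy, ← h6' x y hx hy]
    ring
  · rw [WithLp.prod_norm_sq_eq_of_L2]
    exact (add_le_add (h7 x hx).1 (h7' x hx).1).trans hb
  · rw [WithLp.prod_inner_apply]
    change F n x + G n x = inner ℝ u (φ x) + inner ℝ u' (φ' x)
    rw [← (h7 x hx).2, ← (h7' x hx).2]

theorem KRep.const (a : ℕ → ℕ) (r : ℝ) : KRep a (fun _ _ => r) := by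
  refine ⟨fun _ => 1, fun _ => 1, ⌈r ^ 2⌉₊ + 1, NPC.Poly.const 1, NPC.Poly.const 1, fun n =>
    ⟨one_pos, ℝ, inferInstance, inferInstance, fun _ => 1, r, ?_, fun x y _ _ => by simp,
      fun x _ => ⟨?_, by simp⟩⟩⟩
  · have h1 := Nat.le_ceil (r ^ 2)
    rw [Real.norm_eq_abs, sq_abs]
    push_cast
    have h2 : (0 : ℝ) ≤ (n : ℝ) ^ (⌈r ^ 2⌉₊ + 1) := by positivity
    linarith
  · rw [norm_one, one_pow]
    push_cast
    have h2 : (0 : ℝ) ≤ (n : ℝ) ^ (⌈r ^ 2⌉₊ + 1) := by positivity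
    have h3 : (0 : ℝ) ≤ (⌈r ^ 2⌉₊ : ℝ) := Nat.cast_nonneg _
    linarith

/-- Signs computed in polynomial time. -/
theorem KRep.sign (a : ℕ → ℕ) {c : List Bool × (List Bool × ℕ) → Bool} (hc : Poly c) :
    KRep a (fun n x => ((sgn (c (x, (un n, a n))) : ℤ) : ℝ)) := by
  have e1 : Poly (fun q : List Bool × (List Bool × (List Bool × ℕ)) => (q.1, q.2.2)) :=
    NPC.Poly.pair (NPC.Poly.fst NPC.Poly.id) (NPC.Poly.snd (NPC.Poly.snd NPC.Poly.id))
  have e2 : Poly (fun q : List Bool × (List Bool × (List Bool × ℕ)) => q.2) :=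
    NPC.Poly.snd NPC.Poly.id
  refine ⟨fun q => sgn (c (q.1, q.2.2)) * sgn (c q.2), fun _ => 1, 1,
    NPC.Poly.imul (TH684.LT.sgn_poly (hc.comp e1)) (TH684.LT.sgn_poly (hc.comp e2)),
    NPC.Poly.const 1, fun n => ⟨one_pos, ℝ, inferInstance, inferInstance,
      fun x => ((sgn (c (x, (un n, a n))) : ℤ) : ℝ), 1, ?_, fun x y _ _ => ?_,
      fun x _ => ⟨?_, by simp⟩⟩⟩
  · rw [norm_one, one_pow]
    push_cast
    have h2 : (0 : ℝ) ≤ (n : ℝ) ^ 1 := by positivity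
    linarith
  · push_cast
    simp [mul_comm]
  · have h2 : (0 : ℝ) ≤ (n : ℝ) ^ 1 := by positivity
    push_cast
    rcases TH684.LT.sgn_pm (c (x, (un n, a n))) with h | h <;> rw [h] <;> simp

/-- The kernel part of a gate. -/
theorem kernelGate_of_rep {A : Set (List Bool)} {c : ℕ} (ha : ∀ n, a n ≤ n ^ c + c)
    (hF : KRep a F) (h1 : ∀ n x, x.length ≤ n → x ∈ A → 1 ≤ F n x)
    (h2 : ∀ n x, x.length ≤ n → x ∉ A → F n x ≤ -1) : KernelGate A := by
  obtain ⟨κ, N, b, hκ, hN, h3⟩ := hF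
  obtain ⟨e0, he0⟩ := exists_bound_mul b b
  obtain ⟨e, he⟩ := exists_bound_add e0 c
  have hdec : Poly (fun z : List Bool =>
      (unbits (List Bool × (List Bool × (List Bool × ℕ))) z).getD ([], ([], ([], 0)))) :=
    NPC.Poly.optGetD poly_unbits (NPC.Poly.const _)
  refine ⟨fun _ => [], fun z => κ ((unbits (List Bool × (List Bool × (List Bool × ℕ))) z).getD
    ([], ([], ([], 0)))), e, polyTime_bits (NPC.Poly.const _), polyTime_bits (hκ.comp hdec),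
    fun n => ⟨a n, ?_, ?_⟩⟩
  · have := he n
    have := ha n
    omega
  obtain ⟨h4, E, i1, i2, φ, u, h5, h6, h7⟩ := h3 n
  set s : ℝ := Real.sqrt (N (un n, a n) : ℝ) with hs
  have hN0 : (0 : ℝ) < (N (un n, a n) : ℝ) := by exact_mod_cast h4
  have hs0 : 0 < s := Real.sqrt_pos.2 hN0
  have hss : s * s = (N (un n, a n) : ℝ) := Real.mul_self_sqrt hN0.le
  refine ⟨E, i1, i2, fun x => s • φ x, s⁻¹ • u, fun _ => 0, 0, fun x y hx hy => ?_,
    fun x hx => ?_⟩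
  · rw [real_inner_smul_left, real_inner_smul_right, ← mul_assoc, hss, mul_comm, h6 x y hx hy]
    beta_reduce
    rw [unbits_bits]
    rfl
  · have h8 : inner ℝ (s⁻¹ • u) (s • φ x) = F n x := by
      rw [real_inner_smul_left, real_inner_smul_right, ← mul_assoc, inv_mul_cancel₀ hs0.ne',
        one_mul, (h7 x hx).2]
    refine ⟨?_, fun hx1 => ?_, fun hx1 => ?_⟩
    · rw [norm_smul, norm_smul, mul_pow, mul_pow, Real.norm_eq_abs, Real.norm_eq_abs, sq_abs,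
        sq_abs]
      have h9 : (s⁻¹) ^ 2 * ‖u‖ ^ 2 * (s ^ 2 * ‖φ x‖ ^ 2) = ‖u‖ ^ 2 * ‖φ x‖ ^ 2 := by
        field_simp
      rw [h9]
      have h10 : ‖u‖ ^ 2 * ‖φ x‖ ^ 2 ≤ ((n ^ b + b : ℕ) : ℝ) * ((n ^ b + b : ℕ) : ℝ) :=
        mul_le_mul h5 (h7 x hx).1 (sq_nonneg _) (by positivity)
      have h11 : ((n ^ b + b : ℕ) : ℝ) * ((n ^ b + b : ℕ) : ℝ) ≤ ((n ^ e + e : ℕ) : ℝ) := by
        have h12 := he0 n
        have h13 := he n
        have h14 : (n ^ b + b) * (n ^ b + b) ≤ n ^ e + e := by omega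
        exact_mod_cast h14
      refine (h10.trans h11).trans (le_of_eq ?_)
      push_cast
      rfl
    · rw [h8]
      simpa using h1 n x hx hx1
    · rw [h8]
      simpa using h2 n x hx hx1

end Pool.Agent.TH743.KG
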