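import Pool.Agent.TH743.KG.Rep

/-!
# Tests of membership in a subspace of polynomial dimension: definitions and polynomials
-/

set_option autoImplicit false

namespace Pool.Agent.TH743.KG

open Pool.Agent.NPC Pool.Agent.H579R2.Spt Pool.Agent.H251R5.PQ
open Pool.Agent.TH684.EX (poly_of_polyTime)
open scoped TensorProduct

/-- The squared distance of the vector `v` from the span of the orthonormal vectors `e j`. -/
noncomputable def distSq {E : Type} [NormedAddCommGroup E] [InnerProductSpace ℝ E] {r : ℕ}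
    (e : Fin r → E) (v : E) : ℝ := ‖v - ∑ j, (inner ℝ (e j) v : ℝ) • e j‖ ^ 2

/-- The set `A` is decided by `k` soft and `l` exact tests of membership in a subspace of polynomial
dimension. There are polynomial-time functions `κ`, with integer values, and `τ`, with truth values,
and a number `b` such that for every `n`, with `L = n ^ b + b`, there are a number `a ≤ L` (advice), a
real inner product space `E` (of any dimension), unit vectors `φ x i j` of `E` (for the strings `x` of
length at most `n`, `i < k + l` and `j < L`) whose inner products, multiplied by a positive integer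
`N`, are the integers `κ ((x, i, j), (y, i', j'), 1ⁿ, a)`, and orthonormal vectors
`e 0, …, e (r - 1)`, `r ≤ L`, with span `U`, such that for every string `x` of length at most `n` the
sum `D i` of the squared distances of the vectors `φ x i j`, `j < L`, from `U` satisfies
* for `i < k` (soft tests): `D i ≤ L / 3` (answer yes) or `2 * L / 3 ≤ D i` (answer no);
* for `k ≤ i < k + l` (exact tests): `D i = 0` (answer yes) or `1 / L ≤ D i` (answer no);

and `x ∈ A` if and only if `τ` accepts `x`, the list of the `k + l` answers, `1ⁿ` and `a`. -/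
def SubspaceTests (k l : ℕ) (A : Set (List Bool)) : Prop :=
  ∃ (κ : List Bool → ℤ) (τ : List Bool → Bool) (b : ℕ),
    PolyTime (fun z => bits (κ z)) ∧ PolyTime (fun z => bits (τ z)) ∧
    ∀ n : ℕ, ∃ a : ℕ, a ≤ n ^ b + b ∧
      ∃ (E : Type) (_ : NormedAddCommGroup E) (_ : InnerProductSpace ℝ E)
        (φ : List Bool → ℕ → ℕ → E) (N r : ℕ) (e : Fin r → E),
        0 < N ∧ r ≤ n ^ b + b ∧ Orthonormal ℝ e ∧
        (∀ (x : List Bool) (i j : ℕ), x.length ≤ n → i < k + l → j < n ^ b + b → ‖φ x i j‖ = 1) ∧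
        (∀ (x y : List Bool) (i j i' j' : ℕ), x.length ≤ n → y.length ≤ n → i < k + l →
          j < n ^ b + b → i' < k + l → j' < n ^ b + b →
          inner ℝ (φ x i j) (φ y i' j') * (N : ℝ) =
            (κ (bits ((x, (i, j)), ((y, (i', j')), (un n, a)))) : ℝ)) ∧
        ∀ x : List Bool, x.length ≤ n → ∃ v : List Bool, v.length = k + l ∧
          (∀ i < k, (v.getD i false = true →
              ∑ j ∈ Finset.range (n ^ b + b), distSq e (φ x i j) ≤ ((n : ℝ) ^ b + b) / 3) ∧
            (v.getD i false = false →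
              2 * ((n : ℝ) ^ b + b) / 3 ≤ ∑ j ∈ Finset.range (n ^ b + b), distSq e (φ x i j))) ∧
          (∀ i, k ≤ i → i < k + l → (v.getD i false = true →
              ∑ j ∈ Finset.range (n ^ b + b), distSq e (φ x i j) = 0) ∧
            (v.getD i false = false →
              1 / ((n : ℝ) ^ b + b) ≤ ∑ j ∈ Finset.range (n ^ b + b), distSq e (φ x i j))) ∧
          (x ∈ A ↔ τ (bits (x, (v, (un n, a)))) = true)

/-! ### Amplification -/

/-- The amplification polynomial. -/
noncomputable def amp (t : ℝ) : ℝ := t * t * (3 + -2 * t)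

theorem amp_low {t : ℝ} (h0 : 0 ≤ t) (h1 : t ≤ 1 / 3) : 0 ≤ amp t ∧ amp t ≤ 7 / 9 * t := by
  unfold amp
  constructor
  · have : 0 ≤ 3 + -2 * t := by linarith
    positivity
  · have h2 : t * (3 + -2 * t) ≤ 7 / 9 := by nlinarith
    have h3 : t * t * (3 + -2 * t) = (t * (3 + -2 * t)) * t := by ring
    rw [h3]
    exact mul_le_mul_of_nonneg_right h2 h0

theorem amp_symm (t : ℝ) : amp (1 - t) = 1 - amp t := by
  unfold amp; ring

theorem amp_iter_low (r : ℕ) {t : ℝ} (h0 : 0 ≤ t) (h1 : t ≤ 1 / 3) :
    0 ≤ amp^[r] t ∧ amp^[r] t ≤ (7 / 9) ^ r * t := by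
  induction r with
  | zero => simpa using h0
  | succ r ih =>
    rw [Function.iterate_succ_apply']
    obtain ⟨h2, h3⟩ := ih
    have h4 : (7 / 9 : ℝ) ^ r * t ≤ 1 * t :=
      mul_le_mul_of_nonneg_right (pow_le_one₀ (by norm_num) (by norm_num)) h0
    obtain ⟨h5, h6⟩ := amp_low h2 (by linarith)
    refine ⟨h5, h6.trans ?_⟩
    rw [pow_succ]
    nlinarith

theorem amp_iter_symm (r : ℕ) (t : ℝ) : amp^[r] (1 - t) = 1 - amp^[r] t := by
  induction r with
  | zero => rfl
  | succ r ih => rw [Function.iterate_succ_apply', Function.iterate_succ_apply', ih, amp_symm]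

theorem exists_amp {ε : ℝ} (hε : 0 < ε) : ∃ r : ℕ,
    (∀ t : ℝ, 0 ≤ t → t ≤ 1 / 3 → 0 ≤ amp^[r] t ∧ amp^[r] t ≤ ε) ∧
    (∀ t : ℝ, 2 / 3 ≤ t → t ≤ 1 → 1 - ε ≤ amp^[r] t ∧ amp^[r] t ≤ 1) := by
  obtain ⟨r, hr⟩ := exists_pow_lt_of_lt_one hε (show (7 / 9 : ℝ) < 1 by norm_num)
  have h1 : ∀ t : ℝ, 0 ≤ t → t ≤ 1 / 3 → 0 ≤ amp^[r] t ∧ amp^[r] t ≤ ε := by
    intro t h2 h3
    obtain ⟨h4, h5⟩ := amp_iter_low r h2 h3
    have h6 : (0 : ℝ) < (7 / 9) ^ r := by positivity
    exact ⟨h4, by nlinarith⟩
  refine ⟨r, h1, fun t h2 h3 => ?_⟩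
  obtain ⟨h4, h5⟩ := h1 (1 - t) (by linarith) (by linarith)
  rw [amp_iter_symm] at h4 h5
  constructor <;> linarith

/-! ### Decision trees for the soft tests -/

/-- The expected value of `s` at the end of a random path. -/
noncomputable def tree (b : ℕ → ℝ) (s : List Bool → ℝ) : ℕ → ℕ → List Bool → ℝ
  | 0, _, v => s v
  | m + 1, i, v => b i * tree b s m (i + 1) (v ++ [true]) +
      (1 + -1 * b i) * tree b s m (i + 1) (v ++ [false])

theorem tree_abs_le (b : ℕ → ℝ) (s : List Bool → ℝ) {B : ℝ} (hs : ∀ v, |s v| ≤ B) (k : ℕ)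
    (hb : ∀ i < k, 0 ≤ b i ∧ b i ≤ 1) (m : ℕ) :
    ∀ (i : ℕ) (v : List Bool), i + m ≤ k → |tree b s m i v| ≤ B := by
  induction m with
  | zero => intro i v _; exact hs v
  | succ m ih =>
    intro i v hi
    obtain ⟨h1, h2⟩ := hb i (by omega)
    have h3 := ih (i + 1) (v ++ [true]) (by omega)
    have h4 := ih (i + 1) (v ++ [false]) (by omega)
    rw [tree]
    rw [abs_le] at h3 h4 ⊢
    constructor <;> nlinarith

theorem take_succ_getD {v : List Bool} {i : ℕ} (hi : i < v.length) :
    v.take (i + 1) = v.take i ++ [v.getD i false] := by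
  rw [List.take_add_one, List.getD_eq_getElem _ _ hi, List.getElem?_eq_getElem hi]
  rfl

theorem tree_correct (b : ℕ → ℝ) (s : List Bool → ℝ) {B : ℝ} (hs : ∀ v, |s v| ≤ B) (k : ℕ)
    (hb : ∀ i < k, 0 ≤ b i ∧ b i ≤ 1) {ε : ℝ} (v : List Bool) (hv : k ≤ v.length)
    (h1 : ∀ i < k, v.getD i false = true → 1 - ε ≤ b i)
    (h0 : ∀ i < k, v.getD i false = false → b i ≤ ε) (σ : ℝ) (hσ : σ = 1 ∨ σ = -1) {c : ℝ}
    (hσs : c ≤ σ * s (v.take k)) (m : ℕ) :
    ∀ i : ℕ, i + m = k → c - 2 * m * ε * B ≤ σ * tree b s m i (v.take i) := by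
  have hB : 0 ≤ B := (abs_nonneg _).trans (hs [])
  induction m with
  | zero =>
    intro i hi
    rw [tree, show i = k by omega]
    simpa using hσs
  | succ m ih =>
    intro i hi
    obtain ⟨hb1, hb2⟩ := hb i (by omega)
    have h2 := ih (i + 1) (by omega)
    have hil : i < v.length := by omega
    have h3 := take_succ_getD hil
    have hσ2 : ∀ x : ℝ, |x| ≤ B → |σ * x| ≤ B := by
      intro x hx
      rw [abs_mul]
      rcases hσ with h | h <;> rw [h] <;> simpa using hx
    have h4 := hσ2 _ (tree_abs_le b s hs k hb m (i + 1) (v.take i ++ [true]) (by omega))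
    have h5 := hσ2 _ (tree_abs_le b s hs k hb m (i + 1) (v.take i ++ [false]) (by omega))
    rw [abs_le] at h4 h5
    rw [tree]
    rw [h3] at h2
    push_cast
    have h7 : σ * (b i * tree b s m (i + 1) (v.take i ++ [true]) +
        (1 + -1 * b i) * tree b s m (i + 1) (v.take i ++ [false])) =
        b i * (σ * tree b s m (i + 1) (v.take i ++ [true])) +
        (1 - b i) * (σ * tree b s m (i + 1) (v.take i ++ [false])) := by ring
    rw [h7]
    rcases Bool.eq_false_or_eq_true (v.getD i false) with hv1 | hv1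
    · rw [hv1] at h2
      have h6 := h1 i (by omega) hv1
      generalize σ * tree b s m (i + 1) (v.take i ++ [true]) = x at *
      generalize σ * tree b s m (i + 1) (v.take i ++ [false]) = y at *
      have h8 : (1 - b i) * (x - y) ≤ (1 - b i) * (2 * B) :=
        mul_le_mul_of_nonneg_left (by linarith) (by linarith)
      have h9 : (1 - b i) * (2 * B) ≤ ε * (2 * B) :=
        mul_le_mul_of_nonneg_right (by linarith) (by linarith)
      have h10 : b i * x + (1 - b i) * y = x - (1 - b i) * (x - y) := by ring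
      rw [h10]
      linarith
    · rw [hv1] at h2
      have h6 := h0 i (by omega) hv1
      generalize σ * tree b s m (i + 1) (v.take i ++ [true]) = x at *
      generalize σ * tree b s m (i + 1) (v.take i ++ [false]) = y at *
      have h8 : b i * (y - x) ≤ b i * (2 * B) :=
        mul_le_mul_of_nonneg_left (by linarith) hb1
      have h9 : b i * (2 * B) ≤ ε * (2 * B) :=
        mul_le_mul_of_nonneg_right (by linarith) (by linarith)
      have h10 : b i * x + (1 - b i) * y = y - b i * (y - x) := by ring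
      rw [h10]
      linarith

/-! ### Dominating terms for the exact tests -/

/-- The sum of `s v * ∏ g i` over all continuations `v`, the product over the positions of the
answers no. -/
noncomputable def ext (g : ℕ → ℝ) (s : List Bool → ℝ) : ℕ → ℕ → List Bool → ℝ
  | 0, _, v => s v
  | m + 1, i, v => ext g s m (i + 1) (v ++ [true]) + g i * ext g s m (i + 1) (v ++ [false])

/-- The weight of the true answers. -/
noncomputable def wt (g : ℕ → ℝ) : ℕ → ℕ → ℝ
  | 0, _ => 1
  | m + 1, i => (if g i = 0 then 1 else g i) * wt g m (i + 1)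

theorem one_le_wt (g : ℕ → ℝ) (k : ℕ) (hg : ∀ i < k, g i = 0 ∨ 1 ≤ g i) (m : ℕ) :
    ∀ i : ℕ, i + m ≤ k → 1 ≤ wt g m i := by
  induction m with
  | zero => intro i _; exact le_refl _
  | succ m ih =>
    intro i hi
    have h1 := ih (i + 1) (by omega)
    rw [wt]
    rcases hg i (by omega) with h | h
    · rw [if_pos h, one_mul]; exact h1
    · rw [if_neg (by linarith)]
      nlinarith

theorem ext_abs_le (g : ℕ → ℝ) (s : List Bool → ℝ) (hs : ∀ v, |s v| ≤ 1) (k : ℕ)
    (hg : ∀ i < k, g i = 0 ∨ 1 ≤ g i) (m : ℕ) :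
    ∀ (i : ℕ) (v : List Bool), i + m ≤ k → |ext g s m i v| ≤ 2 ^ m * wt g m i := by
  induction m with
  | zero => intro i v _; simpa [ext, wt] using hs v
  | succ m ih =>
    intro i v hi
    have h3 := ih (i + 1) (v ++ [true]) (by omega)
    have h4 := ih (i + 1) (v ++ [false]) (by omega)
    have h5 := one_le_wt g k hg m (i + 1) (by omega)
    rw [ext, wt]
    have h6 : (0 : ℝ) ≤ 2 ^ m * wt g m (i + 1) := by positivity
    rcases hg i (by omega) with h | h
    · rw [if_pos h, h, zero_mul, add_zero, pow_succ]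
      linarith
    · rw [if_neg (by linarith), pow_succ]
      have h7 : |g i * ext g s m (i + 1) (v ++ [false])| ≤ g i * (2 ^ m * wt g m (i + 1)) := by
        rw [abs_mul, abs_of_nonneg (by linarith : 0 ≤ g i)]
        exact mul_le_mul_of_nonneg_left h4 (by linarith)
      have h8 := abs_add_le (ext g s m (i + 1) (v ++ [true]))
        (g i * ext g s m (i + 1) (v ++ [false]))
      have h9 : 1 * (2 ^ m * wt g m (i + 1)) ≤ g i * (2 ^ m * wt g m (i + 1)) :=
        mul_le_mul_of_nonneg_right h h6
      have h10 : 2 ^ m * 2 * (g i * wt g m (i + 1)) = 2 * (g i * (2 ^ m * wt g m (i + 1))) := by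
        ring
      rw [h10]
      linarith

theorem ext_correct (g : ℕ → ℝ) (s : List Bool → ℝ) (hs : ∀ v, |s v| ≤ 1) (k : ℕ) {C : ℝ}
    (hC : 1 ≤ C) (hg : ∀ i < k, g i = 0 ∨ C ≤ g i) (k0 : ℕ) (v : List Bool) (hv : v.length = k)
    (h1 : ∀ i, k0 ≤ i → i < k → (v.getD i false = true ↔ g i = 0)) (σ : ℝ)
    (hσ : σ = 1 ∨ σ = -1) (hσs : s v = σ) (m : ℕ) :
    ∀ i : ℕ, k0 ≤ i → i + m = k →
      (1 - 2 ^ m / C) * wt g m i ≤ σ * ext g s m i (v.take i) := by
  have hC0 : 0 < C := by linarith
  have hg' : ∀ i < k, g i = 0 ∨ 1 ≤ g i := fun i hi => (hg i hi).imp_right fun h => by linarith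
  induction m with
  | zero =>
    intro i _ hi
    rw [ext, wt, List.take_of_length_le (by omega), hσs]
    have h2 : σ * σ = 1 := by rcases hσ with h | h <;> rw [h] <;> norm_num
    rw [h2, pow_zero, mul_one]
    have : 0 ≤ 1 / C := by positivity
    linarith
  | succ m ih =>
    intro i hk0 hi
    have h2 := ih (i + 1) (by omega) (by omega)
    have hil : i < v.length := by omega
    have h3 := take_succ_getD hil
    have hw1 := one_le_wt g k hg' m (i + 1) (by omega)
    rw [h3] at h2
    rw [ext, wt]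
    rcases hg i (by omega) with h | h
    · have h4 := (h1 i hk0 (by omega)).2 h
      rw [h4] at h2
      rw [if_pos h, h, zero_mul, add_zero, one_mul]
      refine le_trans ?_ h2
      refine mul_le_mul_of_nonneg_right ?_ (by linarith)
      have h5 : (2 : ℝ) ^ m / C ≤ 2 ^ (m + 1) / C :=
        div_le_div_of_nonneg_right (pow_le_pow_right₀ (by norm_num) (Nat.le_succ m)) hC0.le
      linarith
    · have h4 : v.getD i false = false := by
        by_contra h5
        have h6 := (h1 i hk0 (by omega)).1 (by simpa using h5)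
        linarith
      rw [h4] at h2
      rw [if_neg (by linarith)]
      have h5 := ext_abs_le g s hs k hg' m (i + 1) (v.take i ++ [true]) (by omega)
      have h6 : |σ * ext g s m (i + 1) (v.take i ++ [true])| ≤ 2 ^ m * wt g m (i + 1) := by
        rw [abs_mul]
        rcases hσ with h | h <;> rw [h] <;> simpa using h5
      have h7 := (abs_le.1 h6).1
      have h8 : g i * ((1 - 2 ^ m / C) * wt g m (i + 1)) ≤
          g i * (σ * ext g s m (i + 1) (v.take i ++ [false])) :=
        mul_le_mul_of_nonneg_left h2 (by linarith)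
      have h9 : 2 ^ m * wt g m (i + 1) ≤ g i * (2 ^ m / C * wt g m (i + 1)) := by
        have h10 : (0 : ℝ) ≤ 2 ^ m / C * wt g m (i + 1) := by positivity
        have h11 : C * (2 ^ m / C * wt g m (i + 1)) = 2 ^ m * wt g m (i + 1) := by
          field_simp
        rw [← h11]
        exact mul_le_mul_of_nonneg_right h h10
      have h10 : (1 - 2 ^ (m + 1) / C) * (g i * wt g m (i + 1)) =
          g i * ((1 - 2 ^ m / C) * wt g m (i + 1)) - g i * (2 ^ m / C * wt g m (i + 1)) := by
        rw [pow_succ]; ring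
      rw [h10]
      have h11 : σ * (ext g s m (i + 1) (v.take i ++ [true]) +
          g i * ext g s m (i + 1) (v.take i ++ [false])) =
          σ * ext g s m (i + 1) (v.take i ++ [true]) +
          g i * (σ * ext g s m (i + 1) (v.take i ++ [false])) := by ring
      rw [h11]
      linarith

end Pool.Agent.TH743.KG
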