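import Pool.Agent.TH743.KG.Sub

/-!
# Tests of membership in a subspace of polynomial dimension give a threshold gate
-/

set_option autoImplicit false

namespace Pool.Agent.TH743.KG

open Pool.Agent.NPC Pool.Agent.H579R2.Spt Pool.Agent.H251R5.PQ
open Pool.Agent.TH684.EX (poly_of_polyTime)
open Pool.Agent.TH684.LT (exists_pow_add_bound pow_upoly)
open scoped TensorProduct

/-! ### Distances -/

section dist

variable {E : Type} [NormedAddCommGroup E] [InnerProductSpace ℝ E] {r : ℕ}

/-- The squared length of the projection. -/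
noncomputable def projSq (e : Fin r → E) (v : E) : ℝ := ∑ j, (inner ℝ (e j) v) ^ 2

theorem distSq_eq (e : Fin r → E) (he : Orthonormal ℝ e) (v : E) :
    distSq e v = ‖v‖ ^ 2 - projSq e v := by
  unfold distSq projSq
  set p : E := ∑ j, (inner ℝ (e j) v : ℝ) • e j with hp
  have h1 : inner ℝ v p = ∑ j, (inner ℝ (e j) v : ℝ) ^ 2 := by
    rw [hp, inner_sum]
    refine Finset.sum_congr rfl fun j _ => ?_
    rw [real_inner_smul_right, real_inner_comm, sq]
  have h2 : inner ℝ p p = ∑ j, (inner ℝ (e j) v : ℝ) ^ 2 := by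
    conv_lhs => rw [hp]
    rw [sum_inner]
    refine Finset.sum_congr rfl fun j _ => ?_
    rw [real_inner_smul_left, inner_sum]
    have h3 : ∑ l, inner ℝ (e j) ((inner ℝ (e l) v : ℝ) • e l) = (inner ℝ (e j) v : ℝ) := by
      have h4 := orthonormal_iff_ite.1 he
      simp only [real_inner_smul_right, h4]
      simp
    rw [h3, sq]
  rw [@norm_sub_sq_real, h1, ← real_inner_self_eq_norm_sq p, h2]
  ring

theorem projSq_eq (e : Fin r → E) (v : E) :
    projSq e v = inner ℝ (∑ j, e j ⊗ₜ[ℝ] e j) (v ⊗ₜ[ℝ] v) := by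
  rw [sum_inner, projSq]
  exact Finset.sum_congr rfl fun j _ => by rw [TensorProduct.inner_tmul, sq]

theorem norm_sq_sum_tmul (e : Fin r → E) (he : Orthonormal ℝ e) :
    ‖∑ j, e j ⊗ₜ[ℝ] e j‖ ^ 2 = r := by
  rw [← real_inner_self_eq_norm_sq, sum_inner]
  have h1 : ∀ j ∈ (Finset.univ : Finset (Fin r)),
      inner ℝ (e j ⊗ₜ[ℝ] e j) (∑ l, e l ⊗ₜ[ℝ] e l) = (1 : ℝ) := by
    intro j _
    rw [inner_sum]
    simp only [TensorProduct.inner_tmul]
    have h2 := orthonormal_iff_ite.1 he
    simp [h2]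
  rw [Finset.sum_congr rfl h1]
  simp

theorem projSq_le_one (e : Fin r → E) (he : Orthonormal ℝ e) (v : E) (hv : ‖v‖ = 1) :
    0 ≤ projSq e v ∧ projSq e v ≤ 1 := by
  constructor
  · exact Finset.sum_nonneg fun j _ => sq_nonneg _
  · have h1 : 0 ≤ distSq e v := sq_nonneg _
    rw [distSq_eq e he, hv] at h1
    linarith

end dist

/-! ### More representations -/

variable {a : ℕ → ℕ}

theorem KRep.seq (a : ℕ → ℕ) {c : ℕ → ℝ} {e : ℕ} (hc : ∀ n, c n ^ 2 ≤ ((n ^ e + e : ℕ) : ℝ)) :
    KRep a (fun n _ => c n) := by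
  obtain ⟨e', he'⟩ := exists_bound_add e 1
  refine ⟨fun _ => 1, fun _ => 1, e', NPC.Poly.const 1, NPC.Poly.const 1, fun n =>
    ⟨one_pos, ℝ, inferInstance, inferInstance, fun _ => 1, c n, ?_, fun x y _ _ => by simp,
      fun x _ => ⟨?_, by simp⟩⟩⟩
  · rw [Real.norm_eq_abs, sq_abs]
    refine (hc n).trans ?_
    have := he' n
    exact_mod_cast (show n ^ e + e ≤ n ^ e' + e' by omega)
  · rw [norm_one, one_pow]
    have := he' n
    exact_mod_cast (show 1 ≤ n ^ e' + e' by omega)

theorem list_range_sum' {m : ℕ} (f : ℕ → ℤ) :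
    ((List.range m).map f).sum = ∑ t ∈ Finset.range m, f t := by
  rw [list_range_sum, Finset.sum_range]

theorem KRep.amp {F : ℕ → List Bool → ℝ} (hF : KRep a F) (r : ℕ) :
    KRep a (fun n x => KG.amp^[r] (F n x)) := by
  induction r with
  | zero => exact hF
  | succ r ih =>
    refine ((ih.mul ih).mul ((KRep.const a 3).add ((KRep.const a (-2)).mul ih))).congr
      fun n x _ => ?_
    rw [Function.iterate_succ_apply']
    rfl

theorem KRep.tree {F : ℕ → ℕ → List Bool → ℝ} {s : ℕ → List Bool → List Bool → ℝ} {k : ℕ}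
    (hF : ∀ i < k, KRep a (F i)) (hs : ∀ v, KRep a (fun n x => s n x v)) (m : ℕ) :
    ∀ (i : ℕ) (v : List Bool), i + m ≤ k →
      KRep a (fun n x => KG.tree (fun i => F i n x) (s n x) m i v) := by
  induction m with
  | zero => intro i v _; exact hs v
  | succ m ih =>
    intro i v hi
    exact ((hF i (by omega)).mul (ih (i + 1) (v ++ [true]) (by omega))).add
      (((KRep.const a 1).add ((KRep.const a (-1)).mul (hF i (by omega)))).mul
        (ih (i + 1) (v ++ [false]) (by omega)))

theorem KRep.ext {F : ℕ → ℕ → List Bool → ℝ} {s : ℕ → List Bool → List Bool → ℝ} {k : ℕ}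
    (hF : ∀ i < k, KRep a (F i)) (hs : ∀ v, KRep a (fun n x => s n x v)) (m : ℕ) :
    ∀ (i : ℕ) (v : List Bool), i + m ≤ k →
      KRep a (fun n x => KG.ext (fun i => F i n x) (s n x) m i v) := by
  induction m with
  | zero => intro i v _; exact hs v
  | succ m ih =>
    intro i v hi
    exact (ih (i + 1) (v ++ [true]) (by omega)).add
      ((hF i (by omega)).mul (ih (i + 1) (v ++ [false]) (by omega)))

/-- **Subspace tests give a threshold gate with a kernel part.** -/
theorem kernelGate_of_subspaceTests {k l : ℕ} {A : Set (List Bool)} (h : SubspaceTests k l A) :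
    KernelGate A := by
  obtain ⟨κ, τ, b, hκ, hτ, h⟩ := h
  have hκp : Poly κ := poly_of_polyTime hκ
  have hτp : Poly τ := poly_of_polyTime hτ
  choose a ha E i1 i2 φ N r e hN hr he hφ hin hx using h
  have hL1 : ∀ n : ℕ, 1 ≤ n ^ b + b := by
    intro n
    rcases Nat.eq_zero_or_pos b with h0 | h0
    · subst h0; simp
    · omega
  have hL1r : ∀ n : ℕ, (1 : ℝ) ≤ (n : ℝ) ^ b + b := by
    intro n
    exact_mod_cast hL1 n
  -- the sums of the squared lengths of the projections
  have hS : ∀ i < k + l, KRep a (fun n x =>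
      ∑ j ∈ Finset.range (n ^ b + b), projSq (e n) (φ n x i j)) := by
    intro i hi
    have hLp : UPoly (fun q : List Bool × (List Bool × (List Bool × ℕ)) =>
        q.2.2.1.length ^ b + b) :=
      (pow_upoly (UPoly.length (NPC.Poly.fst (NPC.Poly.snd (NPC.Poly.snd NPC.Poly.id)))) b).add
        (UPoly.const b)
    set κ1 : List Bool × (List Bool × (List Bool × ℕ)) → ℕ → ℕ → ℤ := fun q j j' =>
      κ (bits ((q.1, (i, j)), ((q.2.1, (i, j')), q.2.2))) with hκ1
    set κ' : List Bool × (List Bool × (List Bool × ℕ)) → ℤ := fun q =>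
      ((List.range (q.2.2.1.length ^ b + b)).map fun j =>
        ((List.range (q.2.2.1.length ^ b + b)).map fun j' => κ1 q j j' * κ1 q j j').sum).sum
      with hκ'
    have hκ'p : Poly κ' := by
      have e1 : Poly (fun q : (List Bool × (List Bool × (List Bool × ℕ))) × ℕ => q.1) :=
        NPC.Poly.fst NPC.Poly.id
      have f0 : Poly (fun q : ((List Bool × (List Bool × (List Bool × ℕ))) × ℕ) × ℕ => q.1.1) :=
        NPC.Poly.fst (NPC.Poly.fst NPC.Poly.id)
      have f1 : Poly (fun q : ((List Bool × (List Bool × (List Bool × ℕ))) × ℕ) × ℕ =>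
          q.1.1.1) := NPC.Poly.fst f0
      have f2 : Poly (fun q : ((List Bool × (List Bool × (List Bool × ℕ))) × ℕ) × ℕ =>
          q.1.1.2.1) := NPC.Poly.fst (NPC.Poly.snd f0)
      have f3 : Poly (fun q : ((List Bool × (List Bool × (List Bool × ℕ))) × ℕ) × ℕ =>
          q.1.1.2.2) := NPC.Poly.snd (NPC.Poly.snd f0)
      have f4 : Poly (fun q : ((List Bool × (List Bool × (List Bool × ℕ))) × ℕ) × ℕ =>
          q.1.2) := NPC.Poly.snd (NPC.Poly.fst NPC.Poly.id)
      have f5 : Poly (fun q : ((List Bool × (List Bool × (List Bool × ℕ))) × ℕ) × ℕ =>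
          q.2) := NPC.Poly.snd NPC.Poly.id
      have g1 : Poly (fun q : ((List Bool × (List Bool × (List Bool × ℕ))) × ℕ) × ℕ =>
          κ1 q.1.1 q.1.2 q.2) :=
        hκp.comp (bits_poly.comp (NPC.Poly.pair (NPC.Poly.pair f1 (NPC.Poly.pair
          (NPC.Poly.const i) f4)) (NPC.Poly.pair (NPC.Poly.pair f2 (NPC.Poly.pair
          (NPC.Poly.const i) f5)) f3)))
      refine NPC.Poly.isum (NPC.Poly.map (l := fun q : List Bool × (List Bool ×
        (List Bool × ℕ)) => List.range (q.2.2.1.length ^ b + b)) (F := fun q j =>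
        ((List.range (q.2.2.1.length ^ b + b)).map fun j' => κ1 q j j' * κ1 q j j').sum)
        hLp.range (NPC.Poly.isum ?_))
      exact NPC.Poly.map (l := fun q : (List Bool × (List Bool × (List Bool × ℕ))) × ℕ =>
        List.range (q.1.2.2.1.length ^ b + b)) (F := fun q j' =>
          κ1 q.1 q.2 j' * κ1 q.1 q.2 j') (hLp.comp e1).range (NPC.Poly.imul g1 g1)
    have g2 : Poly (fun q : List Bool × ℕ =>
        κ (bits ((([] : List Bool), (0, 0)), ((([] : List Bool), (0, 0)), q)))) :=
      hκp.comp (bits_poly.comp (NPC.Poly.pair (NPC.Poly.const _)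
        (NPC.Poly.pair (NPC.Poly.const _) NPC.Poly.id)))
    have hNκ : ∀ n, (κ (bits ((([] : List Bool), (0, 0)),
        ((([] : List Bool), (0, 0)), (un n, a n)))) : ℝ) = N n := by
      intro n
      have := hL1 n
      rw [← hin n [] [] 0 0 0 0 (by simp) (by simp) (by omega) (by omega) (by omega) (by omega),
        real_inner_self_eq_norm_sq, hφ n [] 0 0 (by simp) (by omega) (by omega)]
      simp
    obtain ⟨c, hc⟩ := exists_bound_mul b b
    obtain ⟨c', hc'⟩ := exists_bound_add b c
    refine ⟨κ', _, c', hκ'p, NPC.Poly.imul g2 g2, fun n => ⟨?_, E n ⊗[ℝ] E n,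
      inferInstance, inferInstance, fun x => ∑ j ∈ Finset.range (n ^ b + b),
        φ n x i j ⊗ₜ[ℝ] φ n x i j, ∑ j, e n j ⊗ₜ[ℝ] e n j, ?_, fun x y hx hy => ?_,
      fun x hx => ⟨?_, ?_⟩⟩⟩
    · have h1 : (0 : ℝ) < (κ (bits ((([] : List Bool), (0, 0)),
          ((([] : List Bool), (0, 0)), (un n, a n)))) : ℝ) := by
        rw [hNκ]
        exact_mod_cast hN n
      have h2 : 0 < κ (bits ((([] : List Bool), (0, 0)),
          ((([] : List Bool), (0, 0)), (un n, a n)))) := by
        exact_mod_cast h1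
      positivity
    · rw [norm_sq_sum_tmul _ (he n)]
      have h1 : r n ≤ n ^ c' + c' := by
        have h2 := hr n
        have h3 := hc' n
        omega
      exact_mod_cast h1
    · have hun : (un n).length = n := by simp [un]
      rw [hκ']
      beta_reduce
      simp only [hun]
      rw [list_range_sum', sum_inner, Finset.sum_mul, Int.cast_sum]
      refine Finset.sum_congr rfl fun j hj => ?_
      rw [list_range_sum', inner_sum, Finset.sum_mul, Int.cast_sum]
      refine Finset.sum_congr rfl fun j' hj' => ?_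
      rw [TensorProduct.inner_tmul]
      push_cast
      rw [hNκ, hκ1]
      beta_reduce
      rw [← hin n x y i j i j' hx hy hi (Finset.mem_range.1 hj) hi (Finset.mem_range.1 hj')]
      ring
    · have h1 : ‖∑ j ∈ Finset.range (n ^ b + b), φ n x i j ⊗ₜ[ℝ] φ n x i j‖ ≤
          ((n ^ b + b : ℕ) : ℝ) := by
        refine (norm_sum_le _ _).trans ?_
        have h2 : ∀ j ∈ Finset.range (n ^ b + b), ‖φ n x i j ⊗ₜ[ℝ] φ n x i j‖ = 1 := by
          intro j hj
          rw [TensorProduct.norm_tmul, hφ n x i j hx hi (Finset.mem_range.1 hj), one_mul]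
        rw [Finset.sum_congr rfl h2]
        simp
      have h2 : ‖∑ j ∈ Finset.range (n ^ b + b), φ n x i j ⊗ₜ[ℝ] φ n x i j‖ ^ 2 ≤
          ((n ^ b + b : ℕ) : ℝ) ^ 2 := pow_le_pow_left₀ (norm_nonneg _) h1 2
      refine h2.trans ?_
      have h3 : (n ^ b + b) ^ 2 ≤ n ^ c' + c' := by
        have h4 := hc n
        have h5 := hc' n
        rw [sq]
        omega
      exact_mod_cast h3
    · rw [inner_sum]
      exact Finset.sum_congr rfl fun j _ => projSq_eq _ _
  -- the signs
  have hs : ∀ v : List Bool, KRep a (fun n x =>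
      ((sgn (τ (bits (x, (v, (un n, a n))))) : ℤ) : ℝ)) := by
    intro v
    refine KRep.sign a (c := fun q => τ (bits (q.1, (v, q.2)))) ?_
    exact hτp.comp (bits_poly.comp (NPC.Poly.pair (NPC.Poly.fst NPC.Poly.id)
      (NPC.Poly.pair (NPC.Poly.const v) (NPC.Poly.snd NPC.Poly.id))))
  -- the soft tests
  set T : ℕ → ℕ → List Bool → ℝ := fun i n x => 1 / ((n : ℝ) ^ b + b) *
    ∑ j ∈ Finset.range (n ^ b + b), projSq (e n) (φ n x i j) with hT
  have hTr : ∀ i < k, KRep a (T i) := by
    intro i hi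
    refine (KRep.seq a (c := fun n => 1 / ((n : ℝ) ^ b + b)) (e := 1) fun n => ?_).mul
      (hS i (by omega))
    have h1 := hL1r n
    have h2 : 1 / ((n : ℝ) ^ b + b) ≤ 1 := by
      rw [div_le_one (by linarith)]; exact h1
    have h3 : 0 ≤ 1 / ((n : ℝ) ^ b + b) := by positivity
    have h4 : (1 / ((n : ℝ) ^ b + b)) ^ 2 ≤ 1 := pow_le_one₀ h3 h2
    push_cast
    have h5 : (0 : ℝ) ≤ (n : ℝ) ^ 1 := by positivity
    linarith
  -- the exact tests
  set C : ℝ := 2 ^ (l + 2) with hC
  have hC0 : 0 < C := by positivity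
  have hC1 : 1 ≤ C := one_le_pow₀ (by norm_num)
  set g : ℕ → ℕ → List Bool → ℝ := fun i n x => (C * ((n : ℝ) ^ b + b)) *
    (((n : ℝ) ^ b + b) + (-1) * ∑ j ∈ Finset.range (n ^ b + b), projSq (e n) (φ n x i j)) with hg
  have hgr : ∀ i < k + l, KRep a (g i) := by
    intro i hi
    have hcast : ∀ n : ℕ, ((n : ℝ) ^ b + b) ^ 2 = (((n ^ b + b) * (n ^ b + b) : ℕ) : ℝ) := by
      intro n; push_cast; ring
    obtain ⟨c, hc⟩ := exists_bound_mul b b
    have h1 : KRep a (fun n _ => (n : ℝ) ^ b + b) := by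
      refine KRep.seq a (e := c) fun n => ?_
      rw [hcast]
      exact_mod_cast hc n
    exact ((KRep.const a C).mul h1).mul (h1.add ((KRep.const a (-1)).mul (hS i hi)))
  -- the polynomial
  set s0 : ℕ → List Bool → List Bool → ℝ := fun n x v =>
    ((sgn (τ (bits (x, (v, (un n, a n))))) : ℤ) : ℝ) with hs0
  set s1 : ℕ → List Bool → List Bool → ℝ := fun n x v =>
    KG.ext (fun i => g i n x) (s0 n x) l k v with hs1
  have hs1r : ∀ v, KRep a (fun n x => s1 n x v) := fun v => KRep.ext hgr hs l k v (le_refl _)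
  set ε : ℝ := 1 / (8 * (k + 1) * 2 ^ l) with hε
  have hε0 : 0 < ε := by positivity
  have hε1 : ε ≤ 1 := by
    rw [hε, div_le_one (by positivity)]
    have h1 : (0 : ℝ) ≤ k := Nat.cast_nonneg k
    have h2 : (1 : ℝ) ≤ 2 ^ l := one_le_pow₀ (by norm_num)
    nlinarith
  obtain ⟨R, hR1, hR2⟩ := exists_amp hε0
  have hTree := KRep.tree (k := k) (F := fun i n x => KG.amp^[R] (T i n x)) (s := s1)
    (fun i hi => (hTr i hi).amp R) hs1r k 0 [] (by omega)
  have hs0b : ∀ n x v, |s0 n x v| ≤ 1 := by
    intro n x v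
    rcases TH684.LT.sgn_pm (τ (bits (x, (v, (un n, a n))))) with h | h <;>
      simp only [hs0, h] <;> simp
  have key : ∀ n x, x.length ≤ n → ∀ σ : ℝ, (x ∈ A ∧ σ = 1 ∨ x ∉ A ∧ σ = -1) →
      1 ≤ σ * (2 * KG.tree (fun i => KG.amp^[R] (T i n x)) (s1 n x) k 0 []) := by
    intro n x hxn σ hσ
    obtain ⟨v, hv1, hv2, hv3, hv4⟩ := hx n x hxn
    have hL := hL1r n
    have hL0 : 0 < (n : ℝ) ^ b + b := by linarith
    set S : ℕ → ℝ := fun i => ∑ j ∈ Finset.range (n ^ b + b), projSq (e n) (φ n x i j) with hSd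
    have hD : ∀ i < k + l, ∑ j ∈ Finset.range (n ^ b + b), distSq (e n) (φ n x i j) =
        ((n : ℝ) ^ b + b) - S i := by
      intro i hi
      have h1 : ∀ j ∈ Finset.range (n ^ b + b), distSq (e n) (φ n x i j) =
          1 - projSq (e n) (φ n x i j) := by
        intro j hj
        rw [distSq_eq _ (he n), hφ n x i j hxn hi (Finset.mem_range.1 hj), one_pow]
      rw [Finset.sum_congr rfl h1, Finset.sum_sub_distrib]
      simp [hSd]
    have hS01 : ∀ i < k + l, 0 ≤ S i ∧ S i ≤ (n : ℝ) ^ b + b := by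
      intro i hi
      constructor
      · exact Finset.sum_nonneg fun j _ => Finset.sum_nonneg fun _ _ => sq_nonneg _
      · have h1 : S i ≤ ∑ j ∈ Finset.range (n ^ b + b), (1 : ℝ) :=
          Finset.sum_le_sum fun j hj => (projSq_le_one _ (he n) _
            (hφ n x i j hxn hi (Finset.mem_range.1 hj))).2
        simpa using h1
    have hTi : ∀ i, T i n x = S i / ((n : ℝ) ^ b + b) := by
      intro i
      simp only [hT, hSd]
      ring
    have hgi : ∀ i, g i n x = (C * ((n : ℝ) ^ b + b)) * (((n : ℝ) ^ b + b) - S i) := by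
      intro i
      simp only [hg, hSd]
      ring
    have hgC : ∀ i, k ≤ i → i < k + l → (v.getD i false = true ↔ g i n x = 0) ∧
        (g i n x = 0 ∨ C ≤ g i n x) := by
      intro i hki hi
      obtain ⟨h1, h2⟩ := hv3 i hki hi
      rw [hD i hi] at h1 h2
      rw [hgi]
      rcases Bool.eq_false_or_eq_true (v.getD i false) with h | h
      · have h3 := h1 h
        exact ⟨⟨fun _ => by rw [h3, mul_zero], fun _ => h⟩, Or.inl (by rw [h3, mul_zero])⟩
      · have h3 := h2 h
        have h4 : C ≤ C * ((n : ℝ) ^ b + b) * ((n : ℝ) ^ b + b - S i) := by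
          have h5 : 1 ≤ ((n : ℝ) ^ b + b) * ((n : ℝ) ^ b + b - S i) := by
            rw [div_le_iff₀ hL0] at h3
            linarith
          calc C = C * 1 := by ring
            _ ≤ C * (((n : ℝ) ^ b + b) * ((n : ℝ) ^ b + b - S i)) :=
              mul_le_mul_of_nonneg_left h5 hC0.le
            _ = _ := by ring
        refine ⟨⟨fun h5 => by rw [h] at h5; exact absurd h5 (by simp), fun h5 => ?_⟩, Or.inr h4⟩
        linarith
    -- exact part: only the positions between `k` and `k + l` matter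
    set g' : ℕ → ℝ := fun i => if i < k then 0 else g i n x with hg'
    have hext : ∀ (m i : ℕ) (w : List Bool), k ≤ i →
        KG.ext (fun i => g i n x) (s0 n x) m i w = KG.ext g' (s0 n x) m i w := by
      intro m
      induction m with
      | zero => intro i w _; rfl
      | succ m ih =>
        intro i w hi
        rw [KG.ext, KG.ext, ih _ _ (by omega), ih _ _ (by omega)]
        have : g' i = g i n x := by simp only [hg']; rw [if_neg (by omega)]
        rw [this]
    have hg'C : ∀ i < k + l, g' i = 0 ∨ C ≤ g' i := by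
      intro i hi
      by_cases hik : i < k
      · left; simp only [hg']; rw [if_pos hik]
      · have : g' i = g i n x := by simp only [hg']; rw [if_neg hik]
        rw [this]
        exact (hgC i (by omega) hi).2
    have hg'1 : ∀ i < k + l, g' i = 0 ∨ 1 ≤ g' i := fun i hi =>
      (hg'C i hi).imp_right fun h => by linarith
    set W : ℝ := wt g' l k with hW
    have hW1 : 1 ≤ W := one_le_wt g' (k + l) hg'1 l k (le_refl _)
    have hσ1 : σ = 1 ∨ σ = -1 := by
      rcases hσ with h | h
      · exact Or.inl h.2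
      · exact Or.inr h.2
    have hσ0 : s0 n x v = σ := by
      rcases hσ with ⟨h, h'⟩ | ⟨h, h'⟩
      · have h2 := hv4.1 h
        simp only [hs0]
        rw [h2, h']
        simp [sgn]
      · have h2 : τ (bits (x, (v, (un n, a n)))) = false := by
          by_contra h3
          exact h (hv4.2 (by simpa using h3))
        simp only [hs0]
        rw [h2, h']
        simp [sgn]
    have hB : ∀ w, |s1 n x w| ≤ 2 ^ l * W := by
      intro w
      simp only [hs1]
      rw [hext l k w (le_refl _)]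
      exact ext_abs_le g' (s0 n x) (hs0b n x) (k + l) hg'1 l k w (le_refl _)
    have hleaf : 3 / 4 * W ≤ σ * s1 n x (v.take k) := by
      have h1 := ext_correct g' (s0 n x) (hs0b n x) (k + l) hC1 hg'C k v hv1 (fun i hki hi => by
        have : g' i = g i n x := by simp only [hg']; rw [if_neg (by omega)]
        rw [this]
        exact (hgC i hki hi).1) σ hσ1 hσ0 l k (le_refl _) rfl
      have h2 : (1 : ℝ) - 2 ^ l / C = 3 / 4 := by
        rw [hC, pow_add]
        have : (2 : ℝ) ^ l ≠ 0 := by positivity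
        field_simp
        norm_num
      rw [h2] at h1
      simp only [hs1]
      rw [hext l k _ (le_refl _)]
      exact h1
    have hT01 : ∀ i < k, 0 ≤ T i n x ∧ T i n x ≤ 1 := by
      intro i hi
      obtain ⟨h1, h2⟩ := hS01 i (by omega)
      rw [hTi]
      exact ⟨div_nonneg h1 hL0.le, (div_le_one hL0).2 h2⟩
    have hThi : ∀ i < k, v.getD i false = true → 2 / 3 ≤ T i n x := by
      intro i hi h
      have h1 := (hv2 i hi).1 h
      rw [hD i (by omega)] at h1
      rw [hTi, le_div_iff₀ hL0]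
      linarith
    have hTlo : ∀ i < k, v.getD i false = false → T i n x ≤ 1 / 3 := by
      intro i hi h
      have h1 := (hv2 i hi).2 h
      rw [hD i (by omega)] at h1
      rw [hTi, div_le_iff₀ hL0]
      linarith
    have h1 := tree_correct (fun i => KG.amp^[R] (T i n x)) (s1 n x) hB k (fun i hi => by
        rcases Bool.eq_false_or_eq_true (v.getD i false) with h | h
        · obtain ⟨h2, h3⟩ := hR2 _ (hThi i hi h) (hT01 i hi).2
          exact ⟨by linarith, h3⟩
        · obtain ⟨h2, h3⟩ := hR1 _ (hT01 i hi).1 (hTlo i hi h)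
          exact ⟨h2, by linarith⟩) (ε := ε) v (by omega)
      (fun i hi h => (hR2 _ (hThi i hi h) (hT01 i hi).2).1)
      (fun i hi h => (hR1 _ (hT01 i hi).1 (hTlo i hi h)).2) σ hσ1 hleaf k 0 (by omega)
    rw [List.take_zero] at h1
    have h2 : 2 * (k : ℝ) * ε * (2 ^ l * W) ≤ 1 / 4 * W := by
      have h3 : 2 * (k : ℝ) * ε * (2 ^ l * W) = (k / (4 * (k + 1))) * W := by
        rw [hε]
        have h4 : (2 : ℝ) ^ l ≠ 0 := by positivity
        have h5 : (k : ℝ) + 1 ≠ 0 := by positivity
        field_simp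
        ring
      rw [h3]
      refine mul_le_mul_of_nonneg_right ?_ (by linarith)
      rw [div_le_iff₀ (by positivity)]
      have : (0 : ℝ) ≤ k := Nat.cast_nonneg k
      linarith
    linarith
  refine kernelGate_of_rep (c := b) ha ((KRep.const a 2).mul hTree) (fun n x hxn hxA => ?_)
    fun n x hxn hxA => ?_
  · have := key n x hxn 1 (Or.inl ⟨hxA, rfl⟩)
    linarith
  · have := key n x hxn (-1) (Or.inr ⟨hxA, rfl⟩)
    linarith

end Pool.Agent.TH743.KG
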