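import Pool.Agent.TH743.KG.Sub2

/-!
# `NP`-hard sets decided by threshold gates with a kernel part give `P = NP`
-/

set_option autoImplicit false

namespace Pool.Agent.TH743.KG

open Pool.Agent.NPC Pool.Agent.H579R2.Spt Pool.Agent.H251R5.PQ

/-- Sets in `P` are decided by subspace tests (with the subspace `0`). -/
theorem subspaceTests_of_inP {A : Set (List Bool)} (h : InP A) (k l : ℕ) :
    SubspaceTests k l A := by
  obtain ⟨V, hV, hVA⟩ := h
  have hVp : Poly V := PIso.poly_iff.2 hV
  have hdec : Poly (fun z : List Bool =>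
      (unbits (List Bool × (List Bool × (List Bool × ℕ))) z).getD ([], ([], ([], 0)))) :=
    NPC.Poly.optGetD poly_unbits (NPC.Poly.const _)
  refine ⟨fun _ => 1, fun z => decide (V ((unbits (List Bool × (List Bool × (List Bool × ℕ)))
    z).getD ([], ([], ([], 0)))).1 = [true]), 1, polyTime_bits (NPC.Poly.const 1),
    polyTime_bits (NPC.Poly.decide_eq (hVp.comp (NPC.Poly.fst hdec)) (NPC.Poly.const [true])),
    fun n => ⟨0, Nat.zero_le _, ℝ, inferInstance, inferInstance, fun _ _ _ => 1, 1, 0,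
      fun j => j.elim0, one_pos, Nat.zero_le _, ?_, fun _ _ _ _ _ _ => by simp,
      fun _ _ _ _ _ _ _ _ _ _ _ _ => by simp, fun x _ => ⟨List.replicate (k + l) false,
        by simp, fun i hi => ⟨fun h => ?_, fun _ => ?_⟩, fun i hki hi => ⟨fun h => ?_, fun _ => ?_⟩,
        ?_⟩⟩⟩
  · exact ⟨fun j => j.elim0, fun {j} => j.elim0⟩
  · rw [List.getD_eq_getElem _ _ (by simp; omega)] at h
    simp at h
  · have h1 : (0 : ℝ) ≤ (n : ℝ) := Nat.cast_nonneg n
    simp [distSq]
    linarith
  · rw [List.getD_eq_getElem _ _ (by simpa using hi)] at h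
    simp at h
  · have h1 : (0 : ℝ) ≤ (n : ℝ) := Nat.cast_nonneg n
    simp only [distSq, Finset.univ_eq_empty, Finset.sum_empty, sub_zero, norm_one, one_pow,
      Finset.sum_const, Finset.card_range, nsmul_eq_mul, mul_one, pow_one]
    push_cast
    rw [div_le_iff₀ (by linarith)]
    nlinarith
  · beta_reduce
    rw [unbits_bits]
    simp only [Option.getD_some, decide_eq_true_eq]
    exact hVA x

/-- **Kernel gates and subspace tests for `NP`-hard sets.** -/
theorem kernel_tfae : List.TFAE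
    [∀ L : Set (List Bool), InNP L → InP L,
      ∃ A : Set (List Bool), NPHard A ∧ KernelGate A,
      ∃ (A : Set (List Bool)) (k l : ℕ), NPHard A ∧ SubspaceTests k l A,
      ∀ A : Set (List Bool), InNP A → ∀ k l : ℕ, SubspaceTests k l A] := by
  tfae_have 1 → 4 := fun h A hA k l => subspaceTests_of_inP (h A hA) k l
  tfae_have 4 → 3 := fun h => by
    obtain ⟨h1, h2⟩ := Pool.Agent.NPC.H545KS.sat_complete
    exact ⟨_, 0, 0, h2, h _ h1 0 0⟩
  tfae_have 3 → 2 := fun ⟨A, k, l, h1, h2⟩ => ⟨A, h1, kernelGate_of_subspaceTests h2⟩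
  tfae_have 2 → 1 := fun ⟨A, h1, h2⟩ => p_eq_np_of_kernelGate h1 h2
  tfae_finish

end Pool.Agent.TH743.KG
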